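import Mathlib

/-!
# An entire function from a functional equation
-/

set_option autoImplicit false

open Complex Filter Topology
open scoped ComplexConjugate

namespace Pool.Agent.Q246.HPk

lemma diff_reflect {Y : ℂ → ℂ} {s : ℂ} (w : ℂ) (h : DifferentiableAt ℂ Y (1 - conj s)) :
    DifferentiableAt ℂ (fun z => w * conj (Y (1 - conj z))) s := by
  have h1 : DifferentiableAt ℂ (fun z => Y (1 - z)) (conj s) := by
    have h2 : DifferentiableAt ℂ (fun z : ℂ => 1 - z) (conj s) := by fun_prop
    exact DifferentiableAt.comp (conj s) (g := Y) h h2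
  have h3 : DifferentiableAt ℂ (conj ∘ (fun z => Y (1 - z)) ∘ conj) s := by
    have h4 := h1.hasDerivAt.conj_conj
    rw [Complex.conj_conj] at h4
    exact h4.differentiableAt
  exact h3.const_mul w

/-- gluing -/
theorem glue {Y : ℂ → ℂ} (hY : ∀ s : ℂ, 0 < s.re → DifferentiableAt ℂ Y s) {w : ℂ} (hw : ‖w‖ = 1)
    (hfe : ∀ s : ℂ, s.im ≠ 0 → Y s = w * conj (Y (1 - conj s))) :
    ∃ X : ℂ → ℂ, Differentiable ℂ X ∧ (∀ s : ℂ, 0 < s.re → X s = Y s) ∧
      ∀ s : ℂ, X s = w * conj (X (1 - conj s)) := by
  classical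
  have hre : ∀ s : ℂ, (1 - conj s).re = 1 - s.re := fun s => by simp
  have hinv : ∀ s : ℂ, 1 - conj (1 - conj s) = s := fun s => by
    rw [map_sub, map_one, Complex.conj_conj]; ring
  have hww : w * conj w = 1 := by
    rw [Complex.mul_conj, Complex.normSq_eq_norm_sq, hw]; simp
  -- the two functions agree on the strip
  have hstrip : ∀ s : ℂ, 0 < s.re → s.re < 1 → Y s = w * conj (Y (1 - conj s)) := by
    intro s h0 h1
    by_cases him : s.im ≠ 0
    · exact hfe s him
    · push Not at him
      have hc : ContinuousAt (fun z => Y z - w * conj (Y (1 - conj z))) s := by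
        refine ((hY s h0).sub (diff_reflect w (hY _ ?_))).continuousAt
        rw [hre]; linarith
      have hseq : Tendsto (fun n : ℕ => s + (((1 / ((n : ℝ) + 1) : ℝ)) : ℂ) * I) atTop (𝓝 s) := by
        have h2 : Tendsto (fun n : ℕ => (1 / ((n : ℝ) + 1) : ℝ)) atTop (𝓝 0) :=
          tendsto_one_div_add_atTop_nhds_zero_nat
        have h3 : Tendsto (fun n : ℕ => (((1 / ((n : ℝ) + 1) : ℝ)) : ℂ)) atTop (𝓝 ((0 : ℝ) : ℂ)) :=
          (Complex.continuous_ofReal.tendsto 0).comp h2
        have h4 := (h3.mul_const I).const_add s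
        simpa using h4
      have h5 := hc.tendsto.comp hseq
      have h6 : ∀ n : ℕ, ((fun z => Y z - w * conj (Y (1 - conj z))) ∘
          fun n : ℕ => s + (((1 / ((n : ℝ) + 1) : ℝ)) : ℂ) * I) n = 0 := by
        intro n
        simp only [Function.comp_apply]
        rw [sub_eq_zero]
        apply hfe
        have h7 : (s + (((1 / ((n : ℝ) + 1) : ℝ)) : ℂ) * I).im = 1 / ((n : ℝ) + 1) := by
          rw [Complex.add_im, him, zero_add, Complex.im_ofReal_mul, Complex.I_im, mul_one]
        rw [h7]
        positivity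
      have h8 : Tendsto ((fun z => Y z - w * conj (Y (1 - conj z))) ∘
          fun n : ℕ => s + (((1 / ((n : ℝ) + 1) : ℝ)) : ℂ) * I) atTop (𝓝 0) := by
        rw [funext h6]
        exact tendsto_const_nhds
      exact sub_eq_zero.1 (tendsto_nhds_unique h5 h8)
  refine ⟨fun s => if 0 < s.re then Y s else w * conj (Y (1 - conj s)), fun s => ?_,
    fun s hs => if_pos hs, fun s => ?_⟩
  rotate_left
  · change (if 0 < s.re then Y s else w * conj (Y (1 - conj s))) =
      w * conj (if 0 < (1 - conj s).re then Y (1 - conj s)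
        else w * conj (Y (1 - conj (1 - conj s))))
    by_cases h0 : 0 < s.re
    · by_cases h1 : s.re < 1
      · have h2 : 0 < (1 - conj s).re := by rw [hre]; linarith
        rw [if_pos h0, if_pos h2]
        exact hstrip s h0 h1
      · have h2 : ¬ 0 < (1 - conj s).re := by rw [hre]; linarith
        rw [if_pos h0, if_neg h2, hinv, map_mul, Complex.conj_conj, ← mul_assoc, hww, one_mul]
    · have h2 : 0 < (1 - conj s).re := by rw [hre]; linarith
      rw [if_neg h0, if_pos h2]
  · by_cases hs : 0 < s.re
    · refine (hY s hs).congr_of_eventuallyEq ?_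
      have h1 : ∀ᶠ z : ℂ in 𝓝 s, 0 < z.re :=
        (Complex.continuous_re.tendsto s).eventually (lt_mem_nhds hs)
      filter_upwards [h1] with z hz
      exact if_pos hz
    · have h1 : ∀ᶠ z : ℂ in 𝓝 s, z.re < 1 :=
        (Complex.continuous_re.tendsto s).eventually (gt_mem_nhds (by linarith))
      refine (diff_reflect w (hY (1 - conj s) ?_)).congr_of_eventuallyEq ?_
      · rw [hre]; linarith
      · filter_upwards [h1] with z hz
        split_ifs with h2
        · exact hstrip z h2 hz
        · rfl

end Pool.Agent.Q246.HPk
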