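import Pool.Agent.Q246.Glue
import Pool.Agent.W355.UN.Pack
import Pool.Agent.W12.UN.Slow
import Pool.Agent.W215.UN.Gam
import Pool.Agent.Y773.HG.Asm
import Pool.Agent.Y772.HG.Sgn

/-!
# The L-functions of the ray class characters of all number fields in the class `UL`
-/

set_option autoImplicit false

open NumberField Complex Filter Topology
open scoped ComplexConjugate

namespace Pool.Agent.Q246.HPk

open Pool.Agent.W355.UN Pool.Agent.W169.HF H353.E Pool.Agent.Y773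

variable {K : Type} [Field K] [NumberField K]

lemma gaR_diff {a : ℕ} {s : ℂ} (hs : 0 < s.re) : DifferentiableAt ℂ (fun z => Gammaℝ (z + a)) s := by
  have h1 : HasDerivAt (fun z => Gammaℝ (z - (-(a : ℂ)))) _ s :=
    H353.E.hasDerivAt_GammaR (μ := -(a : ℂ)) (by
      rw [sub_neg_eq_add, add_re, natCast_re]
      have : (0 : ℝ) ≤ a := Nat.cast_nonneg a
      linarith)
  simpa using h1.differentiableAt

lemma GG_diff {ι : Type} [Fintype ι] {R : ℝ} (hR : 0 < R) (e : ι → ℕ) {s : ℂ} (hs : 0 < s.re) :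
    DifferentiableAt ℂ (GG R e) s := by
  unfold GG
  refine DifferentiableAt.mul ?_ ?_
  · have hR' : (R : ℂ) ≠ 0 := by exact_mod_cast hR.ne'
    exact ((differentiableAt_id.div_const 2)).const_cpow (Or.inl hR')
  · exact DifferentiableAt.fun_finsetProd fun i _ => gaR_diff hs

/-- growth of the gamma factors to the right -/
lemma GG_growth {ι : Type} [Fintype ι] {R : ℝ} (hR : 1 ≤ R) (e : ι → ℕ) (δ : ℝ) (hδ : 0 < δ) :
    ∃ K : ℝ, 0 < K ∧ ∀ s : ℂ, 2 ≤ s.re → ‖GG R e s‖ ≤ K * Real.exp (δ * ‖s‖ ^ 2) := by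
  classical
  have hR0 : 0 < R := by linarith
  -- products
  have key : ∀ S : Finset ι, ∀ δ : ℝ, 0 < δ → ∃ K : ℝ, 0 < K ∧ ∀ s : ℂ, 2 ≤ s.re →
      ‖∏ i ∈ S, Gammaℝ (s + e i)‖ ≤ K * Real.exp (δ * ‖s‖ ^ 2) := by
    intro S
    induction S using Finset.induction_on with
    | empty =>
      intro δ hδ
      refine ⟨1, one_pos, fun s _ => ?_⟩
      rw [Finset.prod_empty, norm_one, one_mul]
      exact Real.one_le_exp (by positivity)
    | insert a S ha ih =>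
      intro δ hδ
      obtain ⟨K1, hK1, h1⟩ := ih (δ / 2) (by positivity)
      obtain ⟨K2, hK2, h2⟩ := Pool.Agent.W215.UN.gam (e a : ℂ) (by
        rw [natCast_re]
        have : (0 : ℝ) ≤ e a := Nat.cast_nonneg _
        linarith) (δ / 2) (by positivity)
      refine ⟨K2 * K1, by positivity, fun s hs => ?_⟩
      rw [Finset.prod_insert ha, norm_mul]
      have e1 : δ * ‖s‖ ^ 2 = δ / 2 * ‖s‖ ^ 2 + δ / 2 * ‖s‖ ^ 2 := by ring
      rw [e1, Real.exp_add]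
      calc ‖Gammaℝ (s + e a)‖ * ‖∏ i ∈ S, Gammaℝ (s + e i)‖
          ≤ (K2 * Real.exp (δ / 2 * ‖s‖ ^ 2)) * (K1 * Real.exp (δ / 2 * ‖s‖ ^ 2)) :=
            mul_le_mul (h2 s hs) (h1 s hs) (norm_nonneg _) (by positivity)
        _ = _ := by ring
  obtain ⟨K1, hK1, h1⟩ := key Finset.univ (δ / 2) (by positivity)
  -- the power of `R`
  have hlog : 0 ≤ Real.log R := Real.log_nonneg hR
  refine ⟨Real.exp ((Real.log R) ^ 2 / (8 * δ)) * K1, by positivity, fun s hs => ?_⟩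
  unfold GG
  rw [norm_mul, Complex.norm_cpow_eq_rpow_re_of_pos hR0, Real.rpow_def_of_pos hR0]
  have hsre : (s / 2).re ≤ ‖s‖ / 2 := by
    have : (s / 2).re = s.re / 2 := by simp
    rw [this]
    have := Complex.re_le_norm s
    linarith
  have h3 : Real.log R * (s / 2).re ≤ (Real.log R) ^ 2 / (8 * δ) + δ / 2 * ‖s‖ ^ 2 := by
    have h4 : Real.log R * (s / 2).re ≤ Real.log R * (‖s‖ / 2) :=
      mul_le_mul_of_nonneg_left hsre hlog
    have h5 : 0 ≤ (Real.log R / (2 * δ) - ‖s‖) ^ 2 * (δ / 2) := by positivity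
    have h6 : (Real.log R / (2 * δ) - ‖s‖) ^ 2 * (δ / 2) =
        (Real.log R) ^ 2 / (8 * δ) - Real.log R * (‖s‖ / 2) + δ / 2 * ‖s‖ ^ 2 := by
      field_simp
      ring
    linarith
  calc Real.exp (Real.log R * (s / 2).re) * ‖∏ i, Gammaℝ (s + e i)‖
      ≤ Real.exp ((Real.log R) ^ 2 / (8 * δ) + δ / 2 * ‖s‖ ^ 2) *
        (K1 * Real.exp (δ / 2 * ‖s‖ ^ 2)) :=
        mul_le_mul (Real.exp_le_exp.2 h3) (h1 s hs) (norm_nonneg _) (Real.exp_nonneg _)
    _ = _ := by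
      rw [Real.exp_add]
      have e1 : δ * ‖s‖ ^ 2 = δ / 2 * ‖s‖ ^ 2 + δ / 2 * ‖s‖ ^ 2 := by ring
      rw [e1, Real.exp_add]
      ring

/-- the completed function is slow -/
theorem exists_completed {ι : Type} [Fintype ι] {R : ℝ} (hR : 1 ≤ R) {e : ι → ℕ} {F : ℂ → ℂ}
    (hF : FEd R e F) {A : ℝ} (hA : ∀ s : ℂ, 3 / 2 ≤ s.re → ‖F s‖ ≤ A) :
    ∃ X : ℂ → ℂ, Slow X ∧ (∀ s : ℂ, 0 < s.re → X s = GG R e s * F s) ∧
      ∃ w : ℂ, ‖w‖ = 1 ∧ ∀ s : ℂ, X s = w * conj (X (1 - conj s)) := by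
  have hR0 : 0 < R := by linarith
  obtain ⟨w, hw, hfe⟩ := hF.fe
  obtain ⟨X, hX, hXY, hXfe⟩ := glue (Y := fun s => GG R e s * F s)
    (fun s hs => (GG_diff hR0 e hs).mul (hF.diff s)) hw hfe
  refine ⟨X, ?_, hXY, w, hw, hXfe⟩
  have hnorm : ∀ s : ℂ, ‖X s‖ = ‖X (1 - conj s)‖ := fun s => by
    rw [hXfe s, norm_mul, hw, one_mul, Complex.norm_conj]
  have hre : ∀ s : ℂ, (1 - conj s).re = 1 - s.re := fun s => by simp
  have him : ∀ s : ℂ, (1 - conj s).im = s.im := fun s => by simp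
  have hright : ∀ δ : ℝ, 0 < δ → ∃ K : ℝ, 0 < K ∧ ∀ s : ℂ, 2 ≤ s.re →
      ‖X s‖ ≤ K * Real.exp (δ * ‖s‖ ^ 2) := by
    intro δ hδ
    obtain ⟨K1, hK1, h1⟩ := GG_growth hR e δ hδ
    refine ⟨K1 * (|A| + 1), by positivity, fun s hs => ?_⟩
    rw [hXY s (by linarith), norm_mul]
    have h2 : ‖F s‖ ≤ |A| + 1 := (hA s (by linarith)).trans (by linarith [le_abs_self A])
    calc ‖GG R e s‖ * ‖F s‖ ≤ (K1 * Real.exp (δ * ‖s‖ ^ 2)) * (|A| + 1) :=
          mul_le_mul (h1 s hs) h2 (norm_nonneg _) (by positivity)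
      _ = _ := by ring
  obtain ⟨C, hC⟩ := hF.vert 0 2
  -- the compact part
  obtain ⟨C', hC'⟩ : ∃ C' : ℝ, ∀ s : ℂ, -1 ≤ s.re → s.re ≤ 2 → |s.im| ≤ 1 → ‖X s‖ ≤ C' := by
    have hcomp : IsCompact (Metric.closedBall (0 : ℂ) 4) := isCompact_closedBall 0 4
    obtain ⟨C', hC'⟩ := hcomp.exists_bound_of_continuousOn hX.continuous.continuousOn
    refine ⟨C', fun s h1 h2 h3 => hC' s ?_⟩
    rw [mem_closedBall_zero_iff]
    have h4 := Complex.norm_le_abs_re_add_abs_im s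
    have h5 : |s.re| ≤ 2 := abs_le.2 ⟨by linarith, h2⟩
    linarith
  have hstrip : ∀ s : ℂ, -1 ≤ s.re → s.re ≤ 2 → ‖X s‖ ≤ max C C' := by
    intro s h1 h2
    rcases le_total 1 |s.im| with h3 | h3
    · rcases lt_or_ge 0 s.re with h4 | h4
      · rw [hXY s h4]
        exact (hC s h4.le h2 h3).trans (le_max_left _ _)
      · have h5 : 0 < (1 - conj s).re := by rw [hre]; linarith
        rw [hnorm s, hXY _ h5]
        refine (hC _ h5.le (by rw [hre]; linarith) (by rw [him]; exact h3)).trans (le_max_left _ _)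
    · exact (hC' s h1 h2 h3).trans (le_max_right _ _)
  obtain ⟨K1, hK1, h1⟩ := hright 1 one_pos
  refine ⟨hX, Pool.Agent.W12.UN.slow X hX ⟨|Real.log (K1 + |max C C'| + 1)| + 2, 2, fun s => ?_⟩
    ⟨w, hw, hXfe⟩ hright⟩
  set M : ℝ := K1 + |max C C'| + 1 with hM
  have hM1 : 1 ≤ M := by rw [hM]; have := abs_nonneg (max C C'); linarith
  have hn : 0 ≤ ‖s‖ := norm_nonneg s
  have hlogM : 0 ≤ Real.log M := Real.log_nonneg hM1
  have hge : M * Real.exp (2 * (1 + ‖s‖) ^ 2) ≤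
      Real.exp ((|Real.log M| + 2) * (1 + ‖s‖) ^ (2 : ℝ)) := by
    rw [abs_of_nonneg hlogM, Real.rpow_two]
    calc M * Real.exp (2 * (1 + ‖s‖) ^ 2) = Real.exp (Real.log M + 2 * (1 + ‖s‖) ^ 2) := by
          rw [Real.exp_add, Real.exp_log (by linarith)]
      _ ≤ _ := by
        apply Real.exp_le_exp.2
        have h2 : 1 ≤ (1 + ‖s‖) ^ 2 := by nlinarith
        nlinarith
  refine le_trans ?_ hge
  have hsmall : ∀ z : ℂ, 2 ≤ z.re → ‖z‖ ≤ 1 + ‖s‖ → ‖X z‖ ≤ M * Real.exp (2 * (1 + ‖s‖) ^ 2) := by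
    intro z hz hzs
    refine (h1 z hz).trans ?_
    have h2 : K1 ≤ M := by rw [hM]; have := abs_nonneg (max C C'); linarith
    have h3 : 1 * ‖z‖ ^ 2 ≤ 2 * (1 + ‖s‖) ^ 2 := by
      have := norm_nonneg z
      nlinarith
    exact mul_le_mul h2 (Real.exp_le_exp.2 h3) (Real.exp_nonneg _) (by linarith)
  rcases lt_or_ge 2 s.re with h2 | h2
  · exact hsmall s h2.le (by linarith)
  · rcases lt_or_ge s.re (-1) with h3 | h3
    · rw [hnorm s]
      refine hsmall _ (by rw [hre]; linarith) ?_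
      refine (norm_sub_le _ _).trans ?_
      rw [norm_one, Complex.norm_conj]
    · refine (hstrip s h3 h2).trans ?_
      have h4 : max C C' ≤ M := by rw [hM]; have := le_abs_self (max C C'); linarith
      have h5 : 1 ≤ Real.exp (2 * (1 + ‖s‖) ^ 2) := Real.one_le_exp (by positivity)
      nlinarith

/-- the sum over the integers is an L-series -/
lemma logDeriv_eq (ψ : Ideal (𝓞 K) →*₀ ℂ) (s : ℂ) :
    ∑' n : ℕ, cc ψ n * (ArithmeticFunction.vonMangoldt n : ℂ) * (n : ℂ) ^ (-s) =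
      LSeries (fun n => ((ArithmeticFunction.vonMangoldt n : ℝ) : ℂ) * cc ψ n) s := by
  unfold LSeries
  refine tsum_congr fun n => ?_
  rcases eq_or_ne n 0 with rfl | hn
  · simp
  · rw [LSeries.term_of_ne_zero hn, Complex.cpow_neg, div_eq_mul_inv]
    ring

/-- **The L-functions of primitive ray class characters of number fields, of conductor `≠ 1`.** -/
theorem hecke_pk {𝔣 : Ideal (𝓞 K)} {ψ : Ideal (𝓞 K) →*₀ ℂ} {e : InfinitePlace K → ℕ}
    (hp : G.IsPrimChar K 𝔣 ψ) (h : G.IsModChar 𝔣 e ψ) :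
    ∃ X : ℂ → ℂ, Pk (Fintype.card (K →+* ℂ))
      (((Ideal.absNorm 𝔣 * Ideal.absNorm (differentIdeal ℤ (𝓞 K)) : ℕ) : ℝ))
      (fun y => (((Ideal.absNorm 𝔣 * Ideal.absNorm (differentIdeal ℤ (𝓞 K)) : ℕ) : ℝ)) *
        ∏ φ : K →+* ℂ, (1 + ‖(y : ℂ) * I + (G.ex e φ : ℂ)‖))
      (fun s => GG (((Ideal.absNorm 𝔣 * Ideal.absNorm (differentIdeal ℤ (𝓞 K)) : ℕ) : ℝ))
        (G.ex e) s * LI ψ s) X := by
  classical
  obtain ⟨F, hF, hFL⟩ := G.fe_prim hp h
  set N : ℝ := (((Ideal.absNorm 𝔣 * Ideal.absNorm (differentIdeal ℤ (𝓞 K)) : ℕ) : ℝ)) with hN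
  have h𝔡 : differentIdeal ℤ (𝓞 K) ≠ ⊥ := differentIdeal_ne_bot
  have hN1 : 1 ≤ N := by
    rw [hN]
    have h4 : Ideal.absNorm 𝔣 * Ideal.absNorm (differentIdeal ℤ (𝓞 K)) ≠ 0 :=
      mul_ne_zero (fun h1 => h.ne_bot (Ideal.absNorm_eq_zero_iff.mp h1))
        (fun h1 => h𝔡 (Ideal.absNorm_eq_zero_iff.mp h1))
    exact_mod_cast Nat.one_le_iff_ne_zero.mpr h4
  obtain ⟨A, hA, hdir⟩ := Pool.Agent.Y772.DK.t_dirK K
  obtain ⟨hd1, hd2, hd3, hd4, hd5, hd6, hd7, -⟩ := hdir ψ (hp.norm_le_one Pool.Agent.Y772.G.t_sig)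
  obtain ⟨X, hX, hXY, w, hw, hXfe⟩ := exists_completed hN1 hF (A := A) fun s hs => by
    rw [hFL s (by linarith)]
    exact hd5 s hs
  let E : Fin (Fintype.card (K →+* ℂ)) ≃ (K →+* ℂ) := (Fintype.equivFin (K →+* ℂ)).symm
  have hcard : Fintype.card (K →+* ℂ) = Module.finrank ℚ K := NumberField.Embeddings.card K ℂ
  have hgaf : ∀ s : ℂ, gaf N (fun j => -(G.ex e (E j) : ℂ)) s = GG N (G.ex e) s := by
    intro s
    unfold gaf GG
    congr 1
    rw [← Equiv.prod_comp E]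
    refine Finset.prod_congr rfl fun j _ => ?_
    rw [sub_neg_eq_add]
  refine ⟨X, fun j => -(G.ex e (E j) : ℂ), LI ψ, ?_, fun y => ?_, 2, fun s hs => ?_⟩
  · refine ⟨?_, hN1, Bst_nonneg, le_rfl, fun j => ?_, hX, ⟨w, hw, hXfe⟩, fun s hs => ?_,
      fun s hs => hd3 s (by linarith), fun ρ hρ hρ1 s hs => ?_⟩
    · rw [hcard]
      exact Module.finrank_pos
    · rw [neg_re, natCast_re]
      have : (0 : ℝ) ≤ G.ex e (E j) := Nat.cast_nonneg _
      linarith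
    · rw [hXY s (by linarith), hgaf, hFL s (by linarith)]
    · have hs1 : 1 < s.re := by linarith
      rw [logDeriv_apply, hd4 s hs1, norm_neg, logDeriv_eq]
      refine (lc_bound (m := Fintype.card (K →+* ℂ)) (c := cc ψ) (fun n => ?_) hρ
        (by linarith)).trans ?_
      · rw [hcard]
        exact hd7 n
      · refine mul_le_mul_of_nonneg_left ?_ (Nat.cast_nonneg _)
        unfold Bst
        have := abs_nonneg (2 / ρ)
        linarith
  · unfold W355.UN.cond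
    congr 1
    rw [← Equiv.prod_comp E]
    refine Finset.prod_congr rfl fun j _ => ?_
    rw [sub_neg_eq_add]
  · rw [hXY s (by linarith), hFL s (by linarith)]

end Pool.Agent.Q246.HPk
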