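import Mathlib
import Pool.Agent.TH813.Rank
import Pool.Agent.H327R2.SC.ExpLat

/-!
# Transcendence degrees on the lines `z + t γ` with an algebraic direction `γ`

The proof of `MP_9cd479_nt.AlgebraicLines`.
-/

set_option autoImplicit false

namespace Pool.Agent.Q246.Pencil

open Pool.Agent.W252 Pool.Agent.W669.Gel Pool.Agent.TH813.Core Pool.Agent.TH813.Rank Module

/-- The transcendence degree of `ℚ(v, e^v)` as a natural number. -/
noncomputable def td {n : ℕ} (v : Fin n → ℂ) : ℕ :=
  Cardinal.toNat (Algebra.trdeg ℚ (IntermediateField.adjoin ℚ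
    (Set.range v ∪ Set.range fun i => Complex.exp (v i))))

theorem td_eq {n : ℕ} (v : Fin n → ℂ) : td v = finrank ℂ (LinearMap.range (ev v)) := by
  have h1 := toENat_td' v
  rw [← rank_ev] at h1
  have h2 : (Set.range v ∪ Set.range fun i => Complex.exp (v i)) =
      Set.range v ∪ Complex.exp '' Set.range v := by
    rw [← Set.range_comp]
    rfl
  have h3 : ∀ S T : Set ℂ, S = T →
      Cardinal.toNat (Algebra.trdeg ℚ (IntermediateField.adjoin ℚ S)) =
        Cardinal.toNat (Algebra.trdeg ℚ (IntermediateField.adjoin ℚ T)) := by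
    rintro S _ rfl
    rfl
  have h3 : td v = Cardinal.toNat (Pool.Agent.TH813.Rank.td v) := h3 _ _ h2
  rw [h3, ← Cardinal.toNat_toENat, h1]
  rfl

/-! ### linear algebra -/

section linalg

variable {k V ι : Type*} [Field k] [AddCommGroup V] [Module k V]

/-- independent subspaces of `X` -/
theorem sum_finrank_le [FiniteDimensional k V] (E : ι → Submodule k V) (hE : iSupIndep E)
    (X : Submodule k V) (hX : ∀ i, E i ≤ X) (S : Finset ι) :
    ∑ i ∈ S, finrank k (E i) ≤ finrank k X := by
  classical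
  have key : ∑ i ∈ S, finrank k (E i) = finrank k (⨆ i ∈ S, E i : Submodule k V) := by
    induction S using Finset.induction_on with
    | empty =>
      have h0 : (⨆ i ∈ (∅ : Finset ι), E i : Submodule k V) = ⊥ := by simp
      rw [Finset.sum_empty, h0, finrank_bot]
    | insert a S ha ih =>
      rw [Finset.sum_insert ha, ih, Finset.iSup_insert]
      have h1 := Submodule.finrank_sup_add_finrank_inf_eq (E a) (⨆ i ∈ S, E i)
      have h2 : Disjoint (E a) (⨆ i ∈ S, E i) := hE.disjoint_biSup (by simpa using ha)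
      rw [h2.eq_bot, finrank_bot, add_zero] at h1
      exact h1.symm
  rw [key]
  exact Submodule.finrank_mono (iSup₂_le fun i _ => hX i)

variable {A C : Type*} [AddCommGroup A] [Module k A] [FiniteDimensional k A]
  [AddCommGroup C] [Module k C] [FiniteDimensional k C]

theorem rank_prod (f : V →ₗ[k] A) (g : V →ₗ[k] C) (N N' : Submodule k V) (h1 : N' ≤ N)
    (h2 : N' ≤ LinearMap.ker f) :
    finrank k (N.map f) + finrank k (N'.map g) ≤ finrank k (N.map (f.prod g)) := by
  let φ : N.map (f.prod g) →ₗ[k] A := LinearMap.fst k A C ∘ₗ (N.map (f.prod g)).subtype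
  have h3 := φ.finrank_range_add_finrank_ker
  have h4 : LinearMap.range φ = N.map f := by
    rw [LinearMap.range_comp, Submodule.range_subtype, ← Submodule.map_comp, LinearMap.fst_prod]
  let ψ : N'.map g →ₗ[k] LinearMap.ker φ :=
    { toFun := fun c => ⟨⟨(0, (c : C)), by
        obtain ⟨x, hx, hxc⟩ := c.2
        exact ⟨x, h1 hx, Prod.ext (h2 hx) hxc⟩⟩, rfl⟩
      map_add' := fun a b => by
        apply Subtype.ext
        apply Subtype.ext
        simp
      map_smul' := fun a b => by
        apply Subtype.ext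
        apply Subtype.ext
        simp }
  have h5 : Function.Injective ψ := by
    intro a b hab
    have := congrArg (fun x : LinearMap.ker φ => ((x : N.map (f.prod g)) : A × C).2) hab
    exact Subtype.ext this
  have h6 := LinearMap.finrank_le_finrank_of_injective h5
  rw [h4] at h3
  omega

omit [FiniteDimensional k A] in
theorem rank_domRestrict [FiniteDimensional k V] (L : V →ₗ[k] A) (p : Submodule k V) :
    finrank k p ≤ finrank k (p.map L) + finrank k (p ⊓ LinearMap.ker L : Submodule k V) := by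
  have h1 := (L.domRestrict p).finrank_range_add_finrank_ker
  rw [LinearMap.range_domRestrict] at h1
  have h2 : finrank k (LinearMap.ker (L.domRestrict p)) ≤
      finrank k (p ⊓ LinearMap.ker L : Submodule k V) := by
    rw [← Submodule.finrank_map_subtype_eq p (LinearMap.ker (L.domRestrict p))]
    apply Submodule.finrank_mono
    rintro _ ⟨x, hx, rfl⟩
    exact ⟨x.2, hx⟩
  omega

end linalg

theorem sum_tsub_le {ι : Type*} (S : Finset ι) (e : ι → ℕ) (a : ℕ) :
    ∑ t ∈ S, (e t - a) ≤ (∑ t ∈ S, e t) - a := by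
  classical
  induction S using Finset.induction_on with
  | empty => simp
  | insert b S hb ih =>
    rw [Finset.sum_insert hb, Finset.sum_insert hb]
    omega

/-! ### derivations -/

theorem algInd_exp {ι : Type*} [Fintype ι] (α : ι → ℂ) (hα : ∀ i, IsAlgebraic ℚ (α i))
    (hli : LinearIndependent ℚ α) : AlgebraicIndependent ℚ (fun i => Complex.exp (α i)) := by
  have h1 := Pool.Agent.H327R2.SC.lw_algInd (fun i : Fin (Fintype.card ι) =>
    α ((Fintype.equivFin ι).symm i)) (fun i => hα _) (hli.comp _ (Equiv.injective _))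
  have h2 := h1.comp (Fintype.equivFin ι) (Equiv.injective _)
  simpa [Function.comp_def] using h2

theorem exists_dlog (l : ℂ →ₗ[ℚ] ℂ) :
    ∃ D : Derivation ℚ ℂ ℂ, ∀ a : ℂ, IsAlgebraic ℚ a → dlog D a = l a := by
  classical
  let A : Submodule ℚ ℂ := Subalgebra.toSubmodule (algebraicClosure ℚ ℂ).toSubalgebra
  have hA : ∀ a : ℂ, a ∈ A ↔ IsAlgebraic ℚ a := fun a => mem_algebraicClosure_iff
  let b := Basis.ofVectorSpace ℚ A
  have hind : AlgebraicIndependent ℚ (fun s => Complex.exp ((b s : A) : ℂ)) := by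
    refine algebraicIndependent_of_finite_type (fun t ht => ?_)
    have : Fintype t := ht.fintype
    refine algInd_exp (fun s : t => ((b s : A) : ℂ)) (fun s => (hA _).1 (b s).2) ?_
    have h1 : LinearIndependent ℚ (fun s => ((b s : A) : ℂ)) :=
      b.linearIndependent.map' A.subtype (by simp)
    exact h1.comp _ Subtype.val_injective
  obtain ⟨D, hD⟩ := Pool.Agent.H135R2.VS.exists_der hind
    (fun s => l ((b s : A) : ℂ) * Complex.exp ((b s : A) : ℂ))
  refine ⟨D, fun a ha => ?_⟩
  have h1 : dl D ∘ₗ A.subtype = l ∘ₗ A.subtype := by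
    refine b.ext (fun s => ?_)
    change dlog D ((b s : A) : ℂ) = l ((b s : A) : ℂ)
    unfold dlog
    rw [hD s, mul_div_cancel_right₀ _ (Complex.exp_ne_zero _)]
  exact LinearMap.congr_fun h1 ⟨a, (hA a).2 ha⟩

/-- The derivations dual to the exponentials of the multiples of `γ`. -/
theorem exists_dual (K : IntermediateField ℚ ℂ) (hK : ∀ x ∈ K, IsAlgebraic ℚ x)
    (B : Submodule K ℂ) (hB : ∀ b ∈ B, IsAlgebraic ℚ b) {n : ℕ} (γ : Fin n → ℂ)
    (hγ : ∀ i, IsAlgebraic ℚ (γ i)) (hli : LinearIndependent K (fun i => B.mkQ (γ i)))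
    (j : Fin n) : ∃ D : Derivation ℚ ℂ ℂ, (∀ b ∈ B, dlog D b = 0) ∧
      ∀ (t : K) (i : Fin n), dlog D ((t : ℂ) * γ i) = if i = j then (t : ℂ) else 0 := by
  classical
  obtain ⟨g, hg⟩ := LinearMap.exists_leftInverse_of_injective
    (Finsupp.linearCombination K (fun i => B.mkQ (γ i))) (LinearMap.ker_eq_bot.2 hli)
  have hg' : ∀ i, g (B.mkQ (γ i)) = Finsupp.single i 1 := by
    intro i
    have h1 := LinearMap.congr_fun hg (Finsupp.single i 1)
    rw [LinearMap.comp_apply, Finsupp.linearCombination_single, one_smul] at h1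
    exact h1
  let l : ℂ →ₗ[K] K := (Finsupp.lapply j : (Fin n →₀ K) →ₗ[K] K) ∘ₗ g ∘ₗ B.mkQ
  let l' : ℂ →ₗ[ℚ] ℂ := K.val.toLinearMap ∘ₗ l.restrictScalars ℚ
  obtain ⟨D, hD⟩ := exists_dlog l'
  refine ⟨D, fun b hb => ?_, fun t i => ?_⟩
  · rw [hD b (hB b hb)]
    change (((Finsupp.lapply j : (Fin n →₀ K) →ₗ[K] K) (g (B.mkQ b)) : K) : ℂ) = 0
    have h0 : B.mkQ b = 0 := by rwa [Submodule.mkQ_apply, Submodule.Quotient.mk_eq_zero]
    rw [h0, map_zero, map_zero]
    rfl
  · rw [hD _ ((hK t t.2).mul (hγ i))]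
    change (((Finsupp.lapply j : (Fin n →₀ K) →ₗ[K] K) (g (B.mkQ ((t : ℂ) * γ i))) : K) : ℂ) = _
    have h1 : ((t : ℂ) * γ i) = t • γ i := rfl
    rw [h1, map_smul, map_smul, hg', map_smul, Finsupp.lapply_apply, Finsupp.single_apply]
    split_ifs <;> simp

/-- The field generated by the exponentials of the elements of `B`. -/
noncomputable def expField (B : Set ℂ) : IntermediateField ℚ ℂ :=
  IntermediateField.adjoin ℚ (Complex.exp '' B)

/-- Derivations over the field generated by the exponentials of `B` with given values. -/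
theorem exists_der_over (B : Set ℂ) {κ : Type*} (x : κ → ℂ)
    (hx : AlgebraicIndependent (expField B) x) (v : κ → ℂ) :
    ∃ D : Derivation ℚ ℂ ℂ, (∀ b ∈ B, dlog D b = 0) ∧ ∀ j, D (x j) = v j := by
  obtain ⟨D, hD⟩ := Pool.Agent.H135R2.VS.exists_der hx v
  refine ⟨D.restrictScalars ℚ, fun b hb => ?_, hD⟩
  have h1 : Complex.exp b ∈ expField B := IntermediateField.subset_adjoin ℚ _ ⟨b, hb, rfl⟩
  have h2 := D.map_algebraMap (⟨_, h1⟩ : expField B)
  unfold dlog
  change D (Complex.exp b) / _ = 0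
  have h3 : D (Complex.exp b) = 0 := h2
  rw [h3, zero_div]

section main

variable (K : IntermediateField ℚ ℂ) (hK : ∀ x ∈ K, IsAlgebraic ℚ x)
    (B : Submodule K ℂ) (hB : ∀ b ∈ B, IsAlgebraic ℚ b) {n : ℕ} (γ : Fin n → ℂ)
    (hγ : ∀ i, IsAlgebraic ℚ (γ i)) (hli : LinearIndependent K (fun i => B.mkQ (γ i)))
    (z : Fin n → ℂ) (J : Finset (Fin n))
    (hJ : AlgebraicIndependent (expField (B : Set ℂ)) (fun j : J => z j))

/-- the derivations over the field generated by the exponentials of `B` -/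
noncomputable def derB : Submodule ℂ (Derivation ℚ ℂ ℂ) where
  carrier := {D | ∀ b ∈ B, dlog D b = 0}
  add_mem' := fun {D D'} h h' b hb => by rw [dlog_add_der, h b hb, h' b hb, add_zero]
  zero_mem' := fun b _ => by simp [dlog]
  smul_mem' := fun c D h b hb => by rw [dlog_smul_der, h b hb, mul_zero]

/-- `D ↦ D z` -/
noncomputable def ev0 {m : ℕ} (z : Fin m → ℂ) : Derivation ℚ ℂ ℂ →ₗ[ℂ] (Fin m → ℂ) where
  toFun := fun D i => D (z i)
  map_add' := fun _ _ => rfl
  map_smul' := fun _ _ => rfl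

/-- `D ↦ dlog D z` -/
noncomputable def ev1 {m : ℕ} (z : Fin m → ℂ) : Derivation ℚ ℂ ℂ →ₗ[ℂ] (Fin m → ℂ) where
  toFun := fun D i => dlog D (z i)
  map_add' := fun D D' => by funext i; exact dlog_add_der D D' (z i)
  map_smul' := fun c D => by funext i; exact dlog_smul_der c D (z i)

include hK hB hγ in
theorem lower (t : K) {k : ℕ} (β : Fin k → ℂ) (hβ : ∀ i, β i ∈ B)
    (hβl : LinearIndependent ℚ β) (N : Submodule ℂ (Derivation ℚ ℂ ℂ))
    (hN : N ≤ derB K B) (hN' : N ≤ LinearMap.ker (ev0 z)) :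
    k + finrank ℂ ((derB K B).map (ev0 z)) +
      finrank ℂ (N.map (ev1 (fun i => z i + t * γ i))) ≤
      td (Fin.append β (fun i => z i + t * γ i)) := by
  classical
  rw [td_eq]
  set v : Fin (k + n) → ℂ := Fin.append β (fun i => z i + t * γ i) with hv
  let F : Derivation ℚ ℂ ℂ →ₗ[ℂ] (Fin k → ℂ) × ((Fin n → ℂ) × (Fin n → ℂ)) :=
    (ev1 β).prod ((ev0 z).prod (ev1 (fun i => z i + t * γ i)))
  have h1 : LinearMap.ker (ev v) ≤ LinearMap.ker F := by
    intro D hD
    rw [LinearMap.mem_ker, ev_apply, cc_eq_zero] at hD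
    obtain ⟨hD1, hD2⟩ := hD
    rw [LinearMap.mem_ker]
    refine Prod.ext ?_ (Prod.ext ?_ ?_)
    · funext i
      have := hD2 (Fin.castAdd n i)
      rw [hv, Fin.append_left] at this
      exact this
    · funext i
      have := hD1 (Fin.natAdd k i)
      rw [hv, Fin.append_right, map_add] at this
      have h2 : D ((t : ℂ) * γ i) = 0 := by
        have h3 : IsAlgebraic ℚ ((t : ℂ) * γ i) := (hK t t.2).mul (hγ i)
        have h4 : IsAlgebraic (⊥ : IntermediateField ℚ ℂ) ((t : ℂ) * γ i) :=
          h3.tower_top _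
        refine Pool.Agent.H327R2.SC.der_alg ⊥ D (fun x hx => ?_) h4
        obtain ⟨q, rfl⟩ := IntermediateField.mem_bot.1 hx
        exact D.map_algebraMap q
      rw [h2, add_zero] at this
      exact this
    · funext i
      have := hD2 (Fin.natAdd k i)
      rw [hv, Fin.append_right] at this
      exact this
  have h2 := finrank_range_le (ev v) F h1
  have h3 := rank_prod (ev1 β) ((ev0 z).prod (ev1 (fun i => z i + t * γ i))) ⊤ (derB K B) le_top
    (by
      intro D hD
      rw [LinearMap.mem_ker]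
      funext i
      exact hD (β i) (hβ i))
  have h4 := rank_prod (ev0 z) (ev1 (fun i => z i + t * γ i)) (derB K B) N hN hN'
  have h5 : finrank ℂ ((⊤ : Submodule ℂ (Derivation ℚ ℂ ℂ)).map (ev1 β)) = k := by
    have h6 : AlgebraicIndependent ℚ (fun i => Complex.exp (β i)) :=
      algInd_exp β (fun i => hB _ (hβ i)) hβl
    have h7 : (⊤ : Submodule ℂ (Derivation ℚ ℂ ℂ)).map (ev1 β) = ⊤ := by
      rw [Submodule.map_top, LinearMap.range_eq_top]
      intro w
      obtain ⟨D, hD⟩ := Pool.Agent.H135R2.VS.exists_der h6 (fun i => w i * Complex.exp (β i))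
      refine ⟨D, funext fun i => ?_⟩
      change dlog D (β i) = w i
      unfold dlog
      rw [hD i, mul_div_cancel_right₀ _ (Complex.exp_ne_zero _)]
    rw [h7, finrank_top]
    simp
  rw [Submodule.map_top] at h5
  rw [Submodule.map_top, Submodule.map_top] at h3
  have h6 : finrank ℂ (LinearMap.range F) =
      finrank ℂ (LinearMap.range ((ev1 β).prod ((ev0 z).prod (ev1 (fun i => z i + t * γ i))))) :=
    rfl
  rw [h5] at h3
  rw [h6] at h2
  omega

theorem finrank_le_of_surj {V A C : Type*} [AddCommGroup V] [Module ℂ V] [AddCommGroup A]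
    [Module ℂ A] [FiniteDimensional ℂ A] [AddCommGroup C] [Module ℂ C] (f : V →ₗ[ℂ] A)
    (p : A →ₗ[ℂ] C) (N : Submodule ℂ V) (h : ∀ c : C, ∃ x ∈ N, p (f x) = c) :
    finrank ℂ C ≤ finrank ℂ (N.map f) := by
  have h1 : (N.map f).map p = ⊤ := by
    rw [eq_top_iff]
    rintro c -
    obtain ⟨x, hx, hxc⟩ := h c
    exact ⟨f x, ⟨x, hx, rfl⟩, hxc⟩
  have h2 := Submodule.finrank_map_le p (N.map f)
  rwa [h1, finrank_top] at h2

include hK hB hγ hli hJ in
/-- **Main theorem.** -/
theorem main (S : Finset K) (k : K → ℕ) (β : (t : K) → Fin (k t) → ℂ)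
    (hβ : ∀ t i, β t i ∈ B) (hβl : ∀ t, LinearIndependent ℚ (β t)) :
    ∑ t ∈ S, (k t + n - td (Fin.append (β t) (fun i => z i + t * γ i))) ≤ n - J.card := by
  classical
  choose D hD1 hD2 using exists_dual K hK B hB γ hγ hli
  -- combinations of the dual derivations
  let Φ : (Fin n → ℂ) →ₗ[ℂ] Derivation ℚ ℂ ℂ :=
    { toFun := fun c => ∑ j, c j • D j
      map_add' := fun c c' => by
        simp only [Pi.add_apply, add_smul, Finset.sum_add_distrib]
      map_smul' := fun a c => by
        simp only [Pi.smul_apply, smul_assoc, Finset.smul_sum, RingHom.id_apply] }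
  have hΦ : ∀ c y, dlog (Φ c) y = ∑ j, c j * dlog (D j) y := fun c y =>
    dlog_sum Finset.univ c D y
  have hΦB : ∀ c, Φ c ∈ derB K B := by
    intro c b hb
    rw [hΦ]
    exact Finset.sum_eq_zero fun j _ => by rw [hD1 j b hb, mul_zero]
  let H : End ℂ (Fin n → ℂ) := ev1 z ∘ₗ Φ
  let X : Submodule ℂ (Fin n → ℂ) := LinearMap.ker (ev0 z ∘ₗ Φ)
  let E : K → Submodule ℂ (Fin n → ℂ) := fun t => X ⊓ H.eigenspace (-(t : ℂ))
  have hL : ∀ (t : K) (c : Fin n → ℂ), ev1 (fun i => z i + t * γ i) (Φ c) = H c + (t : ℂ) • c := by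
    intro t c
    funext i
    change dlog (Φ c) (z i + t * γ i) = dlog (Φ c) (z i) + t * c i
    rw [dlog_add, hΦ c (t * γ i)]
    congr 1
    simp only [hD2]
    rw [Finset.sum_eq_single i (fun j _ hj => by rw [if_neg (Ne.symm hj), mul_zero])
      (fun h => absurd (Finset.mem_univ i) h), if_pos rfl, mul_comm]
  have hE : iSupIndep E := by
    have h1 : iSupIndep fun t : K => H.eigenspace (-(t : ℂ)) :=
      (End.eigenspaces_iSupIndep H).comp (f := fun t : K => -(t : ℂ))
        (fun a b hab => Subtype.ext (neg_injective hab))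
    exact h1.mono fun t => inf_le_right
  have hsum := sum_finrank_le E hE X (fun t => inf_le_left) S
  set μ := finrank ℂ ((derB K B).map (ev0 z)) with hμ
  -- the derivations over the exponential field take all values on `J`
  have hμJ : J.card ≤ μ := by
    have h1 := finrank_le_of_surj (C := J → ℂ) (ev0 z)
      { toFun := fun w j => w j, map_add' := fun _ _ => rfl, map_smul' := fun _ _ => rfl }
      (derB K B) (by
        intro c
        obtain ⟨D', h1, h2⟩ := exists_der_over (B : Set ℂ) (fun j : J => z j) hJ c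
        exact ⟨D', h1, funext fun j => h2 j⟩)
    rwa [finrank_fintype_fun_eq_card, Fintype.card_coe] at h1
  have hX : n ≤ μ + finrank ℂ X := by
    have h1 := (ev0 z ∘ₗ Φ).finrank_range_add_finrank_ker
    rw [finrank_fintype_fun_eq_card, Fintype.card_fin] at h1
    have h2 : finrank ℂ (LinearMap.range (ev0 z ∘ₗ Φ)) ≤ μ := by
      apply Submodule.finrank_mono
      rintro _ ⟨c, rfl⟩
      exact ⟨Φ c, hΦB c, rfl⟩
    change _ + finrank ℂ X = n at h1
    omega
  have hXn : finrank ℂ X ≤ n := by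
    have h1 := Submodule.finrank_le X
    rwa [finrank_fintype_fun_eq_card, Fintype.card_fin] at h1
  have hterm : ∀ t ∈ S, k t + n - td (Fin.append (β t) (fun i => z i + t * γ i)) ≤
      finrank ℂ (E t) - (μ + finrank ℂ X - n) := by
    intro t _
    have h1 := lower K hK B hB γ hγ z t (β t) (hβ t) (hβl t) (X.map Φ)
      (by
        rintro _ ⟨c, -, rfl⟩
        exact hΦB c)
      (by
        rintro _ ⟨c, hc, rfl⟩
        exact hc)
    have h2 := rank_domRestrict (ev1 (fun i => z i + t * γ i) ∘ₗ Φ) X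
    rw [Submodule.map_comp] at h2
    have h3 : (X ⊓ LinearMap.ker (ev1 (fun i => z i + t * γ i) ∘ₗ Φ) :
        Submodule ℂ (Fin n → ℂ)) = E t := by
      ext c
      simp only [E, Submodule.mem_inf, LinearMap.mem_ker, LinearMap.comp_apply,
        End.mem_eigenspace_iff]
      rw [hL]
      constructor
      · rintro ⟨h4, h5⟩
        exact ⟨h4, by rw [neg_smul]; exact eq_neg_of_add_eq_zero_left h5⟩
      · rintro ⟨h4, h5⟩
        exact ⟨h4, by rw [h5, neg_smul]; exact neg_add_cancel _⟩
    rw [h3] at h2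
    omega
  calc ∑ t ∈ S, (k t + n - td (Fin.append (β t) (fun i => z i + t * γ i)))
      ≤ ∑ t ∈ S, (finrank ℂ (E t) - (μ + finrank ℂ X - n)) := Finset.sum_le_sum hterm
    _ ≤ (∑ t ∈ S, finrank ℂ (E t)) - (μ + finrank ℂ X - n) := sum_tsub_le _ _ _
    _ ≤ n - J.card := by omega

end main

end Pool.Agent.Q246.Pencil
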