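import Mathlib
import Pool.Agent.TH813.Core2
import Pool.Agent.Q246.Pencil

/-!
# The transcendence degree on lattices of tuples

The proof of `MP_9cd479_nt.ZeroOneLaw`.
-/

set_option autoImplicit false

namespace Pool.Agent.Q246.ZeroOne

open Pool.Agent.W252 Pool.Agent.W669.Gel Pool.Agent.TH813.Core Pool.Agent.TH813.Core2
open Pool.Agent.TH813.Rank hiding td
open Pool.Agent.Q246.Pencil Module MvPolynomial Matrix

/-- a rational combination -/
noncomputable def cmb {n N : ℕ} (y : Fin N → Fin n → ℂ) (a : Fin N → ℚ) : Fin n → ℂ :=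
  fun i => ∑ k, (a k : ℂ) * y k i

theorem cc_cmb {n N : ℕ} (y : Fin N → Fin n → ℂ) (a : Fin N → ℚ) (D : Derivation ℚ ℂ ℂ)
    (κ : Fin n ⊕ Fin n) : cc D (cmb y a) κ = ∑ k, (a k : ℂ) * cc D (y k) κ := by
  rcases κ with i | i
  · change D (∑ k, (a k : ℂ) * y k i) = ∑ k, (a k : ℂ) * D (y k i)
    rw [map_sum]
    refine Finset.sum_congr rfl (fun k _ => ?_)
    rw [← Rat.smul_def, ← Rat.smul_def]
    exact (D : ℂ →ₗ[ℚ] ℂ).map_smul _ _
  · change dl D (∑ k, (a k : ℂ) * y k i) = ∑ k, (a k : ℂ) * dl D (y k i)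
    rw [map_sum]
    refine Finset.sum_congr rfl (fun k _ => ?_)
    rw [← Rat.smul_def, ← Rat.smul_def]
    exact (dl D).map_smul _ _

theorem exists_dual_td {n : ℕ} (z : Fin n → ℂ) : ∃ (r : ℕ) (κ : Fin r → Fin n ⊕ Fin n)
    (Dd : Fin r → Derivation ℚ ℂ ℂ), td z = r ∧
      ∀ a b, cc (Dd a) z (κ b) = if a = b then 1 else 0 := by
  classical
  obtain ⟨d, κ, Dd, h1, h2⟩ := exists_dual z
  have hd : td z = d := by
    rw [td_eq]
    let ρ : Derivation ℚ ℂ ℂ →ₗ[ℂ] (Fin d → ℂ) :=
      { toFun := fun D b => ev z D (κ b)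
        map_add' := fun D D' => by rw [map_add]; rfl
        map_smul' := fun c D => by rw [map_smul]; rfl }
    have h3 : LinearMap.ker (ev z) = LinearMap.ker ρ := by
      ext D
      rw [LinearMap.mem_ker, LinearMap.mem_ker]
      constructor
      · intro h
        funext b
        exact congrFun h (κ b)
      · intro h
        exact h2 D fun b => congrFun h b
    have h4 : LinearMap.range ρ = ⊤ := by
      rw [LinearMap.range_eq_top]
      intro c
      refine ⟨∑ a, c a • Dd a, funext fun b => ?_⟩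
      rw [map_sum, Finset.sum_apply]
      simp only [map_smul, Pi.smul_apply, smul_eq_mul]
      have h5 : ∀ a, ρ (Dd a) b = if a = b then 1 else 0 := fun a => h1 a b
      simp only [h5]
      simp
    rw [finrank_range_eq (ev z) ρ h3, h4, finrank_top]
    simp
  exact ⟨d, κ, Dd, hd, h1⟩

theorem main {n N : ℕ} (y : Fin N → Fin n → ℂ) (a₀ : Fin N → ℚ) (r : ℕ)
    (hr : r ≤ td (cmb y a₀)) :
    ∃ P : MvPolynomial (Fin N) ℚ, P.IsHomogeneous r ∧ eval a₀ P ≠ 0 ∧
      ∀ a : Fin N → ℚ, eval a P ≠ 0 → r ≤ td (cmb y a) := by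
  classical
  obtain ⟨r', κ', Dd', hr', hdual'⟩ := exists_dual_td (cmb y a₀)
  rw [hr'] at hr
  obtain ⟨κ, Dd, hdual⟩ : ∃ (κ : Fin r → Fin n ⊕ Fin n) (Dd : Fin r → Derivation ℚ ℂ ℂ),
      ∀ a b, cc (Dd a) (cmb y a₀) (κ b) = if a = b then 1 else 0 := by
    refine ⟨fun i => κ' (Fin.castLE hr i), fun i => Dd' (Fin.castLE hr i), fun a b => ?_⟩
    rw [hdual']
    simp [Fin.ext_iff]
  let M : Matrix (Fin r) (Fin r) (MvPolynomial (Fin N) ℂ) :=
    Matrix.of fun a b => ∑ k, C (cc (Dd a) (y k) (κ b)) * X k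
  have hM : ∀ a b, (M a b).IsHomogeneous 1 := by
    intro a b
    change (∑ k, C (cc (Dd a) (y k) (κ b)) * X k : MvPolynomial (Fin N) ℂ).IsHomogeneous 1
    refine IsHomogeneous.sum _ _ _ fun k _ => ?_
    have h0 : (C (cc (Dd a) (y k) (κ b)) : MvPolynomial (Fin N) ℂ).IsHomogeneous 0 :=
      isHomogeneous_C _ _
    have h1 : (X k : MvPolynomial (Fin N) ℂ).IsHomogeneous 1 := isHomogeneous_X _ _
    have h := h0.mul h1
    rwa [zero_add] at h
  set Q : MvPolynomial (Fin N) ℂ := M.det with hQ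
  have hQh : Q.IsHomogeneous r := by
    rw [hQ, Matrix.det_apply]
    refine IsHomogeneous.sum _ _ _ fun σ _ => ?_
    have h1 : (∏ i, M (σ i) i).IsHomogeneous r := by
      have h2 := IsHomogeneous.prod Finset.univ (fun i => M (σ i) i) (fun _ => 1)
        (fun i _ => hM _ _)
      simpa using h2
    rcases Int.units_eq_one_or (Equiv.Perm.sign σ) with h | h
    · rw [h, one_smul]; exact h1
    · rw [h]
      have h3 : ((-1 : ℤˣ) • ∏ i, M (σ i) i) = -∏ i, M (σ i) i := by
        rw [Units.smul_def]; simp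
      rw [h3]
      exact h1.neg
  have hQe : ∀ a : Fin N → ℚ, eval (fun k => (a k : ℂ)) Q =
      (Matrix.of fun c b => cc (Dd c) (cmb y a) (κ b)).det := by
    intro a
    rw [hQ, RingHom.map_det]
    congr 1
    ext c b
    simp only [RingHom.mapMatrix_apply, Matrix.map_apply, Matrix.of_apply, M, map_sum, map_mul,
      eval_C, eval_X, cc_cmb]
    exact Finset.sum_congr rfl fun k _ => mul_comm _ _
  have hQ0 : eval (fun k => (a₀ k : ℂ)) Q ≠ 0 := by
    rw [hQe]
    have h1 : (Matrix.of fun c b => cc (Dd c) (cmb y a₀) (κ b)) = (1 : Matrix (Fin r) (Fin r) ℂ) := by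
      ext c b
      rw [Matrix.of_apply, hdual, Matrix.one_apply]
    rw [h1, Matrix.det_one]
    exact one_ne_zero
  obtain ⟨φ, hφ⟩ : ∃ φ : Dual ℚ ℂ, φ (eval (fun k => (a₀ k : ℂ)) Q) ≠ 0 := by
    by_contra hcon
    push Not at hcon
    exact hQ0 ((Module.forall_dual_apply_eq_zero_iff ℚ _).1 hcon)
  let P : MvPolynomial (Fin N) ℚ := ∑ s ∈ Q.support, monomial s (φ (coeff s Q))
  have hPe : ∀ a : Fin N → ℚ, eval a P = φ (eval (fun k => (a k : ℂ)) Q) := by
    intro a
    rw [eval_eq' (fun k => (a k : ℂ)) Q, map_sum, map_sum]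
    refine Finset.sum_congr rfl fun s _ => ?_
    rw [eval_monomial]
    have h1 : coeff s Q * ∏ i, ((a i : ℂ)) ^ s i = (∏ i, (a i) ^ s i : ℚ) • coeff s Q := by
      rw [Rat.smul_def]
      push_cast
      ring
    rw [h1, map_smul, smul_eq_mul, mul_comm]
    congr 1
    rw [Finsupp.prod_fintype _ _ (by simp)]
  refine ⟨P, ?_, by rwa [hPe], fun a ha => ?_⟩
  · refine IsHomogeneous.sum _ _ _ fun s hs => ?_
    refine isHomogeneous_monomial _ ?_
    by_contra hne
    exact (mem_support_iff.1 hs) (hQh.coeff_eq_zero hne)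
  · have h1 : eval (fun k => (a k : ℂ)) Q ≠ 0 := by
      intro h
      rw [hPe, h, map_zero] at ha
      exact ha rfl
    rw [hQe] at h1
    rw [td_eq (cmb y a)]
    have h2 := finrank_le_of_surj (C := Fin r → ℂ) (ev (cmb y a))
      { toFun := fun w b => w (κ b), map_add' := fun _ _ => rfl, map_smul' := fun _ _ => rfl } ⊤
      (by
        intro c
        set W : Matrix (Fin r) (Fin r) ℂ := Matrix.of fun c b => cc (Dd c) (cmb y a) (κ b) with hW
        refine ⟨∑ e, (c ᵥ* W⁻¹) e • Dd e, trivial, funext fun b => ?_⟩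
        change ev (cmb y a) (∑ e, (c ᵥ* W⁻¹) e • Dd e) (κ b) = c b
        rw [map_sum, Finset.sum_apply]
        have h3 : ∀ e, (ev (cmb y a) ((c ᵥ* W⁻¹) e • Dd e)) (κ b) = (c ᵥ* W⁻¹) e * W e b := by
          intro e
          rw [map_smul, Pi.smul_apply, smul_eq_mul]
          rfl
        simp only [h3]
        have h4 : ((c ᵥ* W⁻¹) ᵥ* W) b = c b := by
          rw [vecMul_vecMul, nonsing_inv_mul W (isUnit_iff_ne_zero.2 h1), vecMul_one]
        exact h4)
    rwa [finrank_fintype_fun_eq_card, Fintype.card_fin, Submodule.map_top] at h2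

theorem ev_line {n : ℕ} (z w : Fin n → ℂ) (t : ℚ) (D : Derivation ℚ ℂ ℂ) (κ : Fin n ⊕ Fin n) :
    cc D (fun i => z i + (t : ℂ) * w i) κ = cc D z κ + (t : ℂ) * cc D w κ := by
  rcases κ with i | i
  · change D (z i + (t : ℂ) * w i) = D (z i) + (t : ℂ) * D (w i)
    rw [map_add, ← Rat.smul_def, ← Rat.smul_def]
    congr 1
    exact (D : ℂ →ₗ[ℚ] ℂ).map_smul _ _
  · change dl D (z i + (t : ℂ) * w i) = dl D (z i) + (t : ℂ) * dl D (w i)
    rw [map_add, ← Rat.smul_def, ← Rat.smul_def]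
    congr 1
    exact (dl D).map_smul _ _

/-- lines, with multiplicities -/
theorem lines {n : ℕ} (z w : Fin n → ℂ) (m : ℕ) (hm : m ≤ td w) (S : Finset ℚ) :
    ∑ t ∈ S, (m - td (fun i => z i + (t : ℂ) * w i)) ≤ m := by
  classical
  obtain ⟨r', κ', Dd', hr', hdual'⟩ := exists_dual_td w
  rw [hr'] at hm
  obtain ⟨κ, Dd, hdual⟩ : ∃ (κ : Fin m → Fin n ⊕ Fin n) (Dd : Fin m → Derivation ℚ ℂ ℂ),
      ∀ a b, cc (Dd a) w (κ b) = if a = b then 1 else 0 := by
    refine ⟨fun i => κ' (Fin.castLE hm i), fun i => Dd' (Fin.castLE hm i), fun a b => ?_⟩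
    rw [hdual']
    simp [Fin.ext_iff]
  let Φ : (Fin m → ℂ) →ₗ[ℂ] Derivation ℚ ℂ ℂ :=
    { toFun := fun c => ∑ j, c j • Dd j
      map_add' := fun c c' => by
        simp only [Pi.add_apply, add_smul, Finset.sum_add_distrib]
      map_smul' := fun a c => by
        simp only [Pi.smul_apply, smul_assoc, Finset.smul_sum, RingHom.id_apply] }
  let R : (Fin n ⊕ Fin n → ℂ) →ₗ[ℂ] (Fin m → ℂ) :=
    { toFun := fun w b => w (κ b), map_add' := fun _ _ => rfl, map_smul' := fun _ _ => rfl }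
  let H : End ℂ (Fin m → ℂ) := R ∘ₗ ev z ∘ₗ Φ
  have hw : R ∘ₗ ev w ∘ₗ Φ = LinearMap.id := by
    ext1 j
    ext b
    change ev w (∑ a, (Pi.single j (1 : ℂ) : Fin m → ℂ) a • Dd a) (κ b) = _
    rw [map_sum, Finset.sum_apply]
    have h3 : ∀ a, (ev w ((Pi.single j (1 : ℂ) : Fin m → ℂ) a • Dd a)) (κ b) =
        (Pi.single j (1 : ℂ) : Fin m → ℂ) a * (if a = b then 1 else 0) := by
      intro a
      rw [map_smul, Pi.smul_apply, smul_eq_mul, ← hdual a b]
      rfl
    simp only [h3]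
    simp
  have hL : ∀ (t : ℚ) (c : Fin m → ℂ),
      R (ev (fun i => z i + (t : ℂ) * w i) (Φ c)) = H c + (t : ℂ) • c := by
    intro t c
    have h1 : R (ev w (Φ c)) = c := LinearMap.congr_fun hw c
    funext b
    change cc (Φ c) (fun i => z i + (t : ℂ) * w i) (κ b) = cc (Φ c) z (κ b) + (t : ℂ) * c b
    rw [ev_line]
    congr 2
    exact congrFun h1 b
  let E : ℚ → Submodule ℂ (Fin m → ℂ) := fun t => H.eigenspace (-(t : ℂ))
  have hE : iSupIndep E :=
    (End.eigenspaces_iSupIndep H).comp (f := fun t : ℚ => -(t : ℂ))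
      (fun a b hab => by simpa using hab)
  have hsum := sum_finrank_le E hE ⊤ (fun t => le_top) S
  rw [finrank_top, finrank_fintype_fun_eq_card, Fintype.card_fin] at hsum
  refine le_trans (Finset.sum_le_sum fun t _ => ?_) hsum
  have h1 := (R ∘ₗ ev (fun i => z i + (t : ℂ) * w i) ∘ₗ Φ).finrank_range_add_finrank_ker
  rw [finrank_fintype_fun_eq_card, Fintype.card_fin] at h1
  have h2 : LinearMap.ker (R ∘ₗ ev (fun i => z i + (t : ℂ) * w i) ∘ₗ Φ) = E t := by
    ext c
    rw [LinearMap.mem_ker, LinearMap.comp_apply, LinearMap.comp_apply, hL,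
      End.mem_eigenspace_iff, neg_smul, ← add_eq_zero_iff_eq_neg]
  have h3 : finrank ℂ (LinearMap.range (R ∘ₗ ev (fun i => z i + (t : ℂ) * w i) ∘ₗ Φ)) ≤
      td (fun i => z i + (t : ℂ) * w i) := by
    rw [td_eq, LinearMap.range_comp]
    refine (Submodule.finrank_map_le _ _).trans ?_
    exact Submodule.finrank_mono (LinearMap.range_comp_le_range _ _)
  rw [h2] at h1
  omega

/-- counting -/
theorem count {N : ℕ} (P : MvPolynomial (Fin N) ℚ) (r : ℕ) (hP : P.IsHomogeneous r)
    (h0 : P ≠ 0) (S : Finset ℚ) :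
    ((Fintype.piFinset fun _ : Fin N => S).filter fun a => eval a P = 0).card ≤
      r * S.card ^ (N - 1) := by
  classical
  rcases Nat.eq_zero_or_pos N with hN | hN
  · subst hN
    have h1 : ((Fintype.piFinset fun _ : Fin 0 => S).filter fun a => eval a P = 0) = ∅ := by
      rw [Finset.filter_eq_empty_iff]
      intro a _ ha
      rw [P.eq_C_of_isEmpty] at ha h0
      rw [eval_C] at ha
      rw [ha, map_zero] at h0
      exact h0 rfl
    rw [h1]
    simp
  rcases S.eq_empty_or_nonempty with hS | hS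
  · subst hS
    have h1 : (Fintype.piFinset fun _ : Fin N => (∅ : Finset ℚ)) = ∅ := by
      have : Nonempty (Fin N) := ⟨⟨0, hN⟩⟩
      simp
    rw [h1]
    simp
  have h1 := schwartz_zippel_totalDegree h0 S
  have h2 : P.totalDegree ≤ r := hP.totalDegree_le
  have hc : (0 : ℚ≥0) < S.card := by exact_mod_cast hS.card_pos
  rw [div_le_div_iff₀ (by positivity) hc] at h1
  have h3 : (((Fintype.piFinset fun _ : Fin N => S).filter fun a => eval a P = 0).card : ℚ≥0) *
      S.card ≤ r * (S.card : ℚ≥0) ^ (N - 1) * S.card := by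
    refine h1.trans ?_
    have h4 : (S.card : ℚ≥0) ^ N = (S.card : ℚ≥0) ^ (N - 1) * S.card := by
      rw [← pow_succ]
      congr 1
      omega
    rw [h4, ← mul_assoc]
    gcongr
  have h5 := le_of_mul_le_mul_right h3 hc
  exact_mod_cast h5

/-- Lindemann and Weierstrass -/
theorem td_alg {n : ℕ} (γ : Fin n → ℂ) (hγ : ∀ i, IsAlgebraic ℚ (γ i))
    (hli : LinearIndependent ℚ γ) : n ≤ td γ := by
  classical
  let K : IntermediateField ℚ ℂ := ⊥
  have hK : ∀ x ∈ K, IsAlgebraic ℚ x := by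
    intro x hx
    obtain ⟨q, rfl⟩ := IntermediateField.mem_bot.1 hx
    exact isAlgebraic_algebraMap q
  let B : Submodule K ℂ := ⊥
  have hB : ∀ b ∈ B, IsAlgebraic ℚ b := by
    intro b hb
    rw [(Submodule.mem_bot K).1 hb]
    exact isAlgebraic_zero
  have hliK : LinearIndependent K γ := by
    rw [Fintype.linearIndependent_iff] at hli ⊢
    intro g hg i
    choose q hq using fun i => IntermediateField.mem_bot.1 (g i).2
    have h1 := hli q (by
      rw [← hg]
      refine Finset.sum_congr rfl fun i _ => ?_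
      rw [IntermediateField.smul_def, smul_eq_mul, ← hq i]
      rw [Rat.smul_def]
      rfl) i
    apply Subtype.ext
    rw [← hq i, h1]
    simp
  have hli' : LinearIndependent K (fun i => B.mkQ (γ i)) := by
    refine hliK.map' B.mkQ ?_
    rw [Submodule.ker_mkQ]
  have h1 := Pool.Agent.Q246.Pencil.main K hK B hB γ hγ hli' 0 ∅
    (by
      have : IsEmpty (∅ : Finset (Fin n)) := ⟨fun x => Finset.notMem_empty _ x.2⟩
      exact algebraicIndependent_empty_type) ({0, 1} : Finset K) (fun _ => 0)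
    (fun _ => Fin.elim0) (fun _ i => Fin.elim0 i) (fun _ => linearIndependent_empty_type)
  have h01 : (0 : K) ≠ 1 := zero_ne_one
  rw [Finset.sum_pair h01] at h1
  have h2 : ∀ (w : Fin 0 → ℂ) (v : Fin n → ℂ), td (Fin.append w v) = td v := by
    intro w v
    unfold td
    have e1 : Set.range (Fin.append w v) = Set.range v := by
      ext x
      constructor
      · rintro ⟨i, rfl⟩
        refine Fin.addCases (fun j => Fin.elim0 j) (fun j => ?_) i
        rw [Fin.append_right]
        exact ⟨j, rfl⟩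
      · rintro ⟨i, rfl⟩
        exact ⟨Fin.natAdd 0 i, Fin.append_right _ _ _⟩
    have e2 : (Set.range fun i => Complex.exp (Fin.append w v i)) =
        Set.range fun i => Complex.exp (v i) := by
      have e3 : (fun i => Complex.exp (Fin.append w v i)) = Complex.exp ∘ (Fin.append w v) := rfl
      have e4 : (fun i => Complex.exp (v i)) = Complex.exp ∘ v := rfl
      rw [e3, e4, Set.range_comp, Set.range_comp, e1]
    have e5 : ∀ S T : Set ℂ, S = T →
        Cardinal.toNat (Algebra.trdeg ℚ (IntermediateField.adjoin ℚ S)) =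
          Cardinal.toNat (Algebra.trdeg ℚ (IntermediateField.adjoin ℚ T)) := by
      rintro S _ rfl
      rfl
    exact e5 _ _ (by rw [e1, e2])
  rw [h2, h2] at h1
  have h3 : (fun i => (0 : Fin n → ℂ) i + ((0 : K) : ℂ) * γ i) = (0 : Fin n → ℂ) := by
    funext i; simp
  have h4 : (fun i => (0 : Fin n → ℂ) i + ((1 : K) : ℂ) * γ i) = γ := by
    funext i; simp
  rw [h3, h4] at h1
  have h5 : td (0 : Fin n → ℂ) = 0 := by
    rw [td_eq]
    have : ev (0 : Fin n → ℂ) = 0 := by
      ext D κ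
      rcases κ with i | i
      · change D ((0 : Fin n → ℂ) i) = 0
        simp
      · change dl D ((0 : Fin n → ℂ) i) = 0
        simp
    rw [this, LinearMap.range_zero, finrank_bot]
  rw [h5] at h1
  simp at h1
  omega

end Pool.Agent.Q246.ZeroOne
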