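import Pool.Agent.Y773.HG.Asm
import Pool.Agent.Y772.HG.Sgn

/-!
# Unramified characters (narrow class characters) of number fields: finite Fourier transforms
-/

set_option autoImplicit false
set_option linter.unusedSectionVars false

open NumberField Complex Filter Topology Set
open scoped ComplexConjugate

namespace Pool.Agent.Q246.Unr

open Pool.Agent.Y773 hiding sg Ps rl Nice Ftot
open Pool.Agent.Y773.G (sg Ps Nice Ftot)

variable {K : Type} [Field K] [NumberField K]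

/-- `ψ` is a character of the narrow class group, of signature `e` -/
structure UC (e : InfinitePlace K → ℕ) (ψ : Ideal (𝓞 K) →*₀ ℂ) : Prop where
  he : ∀ w, e w ≤ 1
  cpx : ∀ w : InfinitePlace K, w.IsComplex → e w = 0
  ne : ∀ 𝔞 : Ideal (𝓞 K), 𝔞 ≠ ⊥ → ψ 𝔞 ≠ 0
  sig : ∀ x : 𝓞 K, x ≠ 0 → ψ (Ideal.span {x}) = sg e (x : K)

open Classical in
/-- the constant function on the ideal -/
noncomputable def Ph (ψ : Ideal (𝓞 K) →*₀ ℂ) (𝔟 : Ideal (𝓞 K)) (x : 𝓞 K) : ℂ :=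
  if x ∈ 𝔟 then (ψ 𝔟)⁻¹ else 0

variable {e : InfinitePlace K → ℕ} {ψ : Ideal (𝓞 K) →*₀ ℂ}

lemma UC.norm_one (h : UC e ψ) {𝔞 : Ideal (𝓞 K)} (h0 : 𝔞 ≠ ⊥) : ‖ψ 𝔞‖ = 1 :=
  G.norm_eq_one_of_sig (𝔣 := ⊤) (e := e) (by
    rw [Ne, eq_comm]
    exact bot_ne_top) (fun x hx _ => h.sig x hx) h0
    (Ideal.isCoprime_iff_sup_eq.2 (by simp))

lemma UC.norm_le_one (h : UC e ψ) (𝔞 : Ideal (𝓞 K)) : ‖ψ 𝔞‖ ≤ 1 := by
  by_cases h0 : 𝔞 = ⊥
  · subst h0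
    have : ψ (⊥ : Ideal (𝓞 K)) = 0 := map_zero ψ
    rw [this, norm_zero]
    exact zero_le_one
  · exact (h.norm_one h0).le

lemma UC.norm_Ph_le (h : UC e ψ) {𝔟 : Ideal (𝓞 K)} (h𝔟 : 𝔟 ≠ ⊥) (x : 𝓞 K) : ‖Ph ψ 𝔟 x‖ ≤ 1 := by
  unfold Ph
  split_ifs
  · rw [norm_inv, h.norm_one h𝔟, inv_one]
  · rw [norm_zero]
    exact zero_le_one

lemma UC.rz_Ph (h : UC e ψ) {𝔟 : Ideal (𝓞 K)} (h𝔟 : 𝔟 ≠ ⊥) : rz (Ph ψ 𝔟) = Ps ψ e 𝔟 := by
  funext x
  unfold rz Ph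
  split_ifs with h0 h1
  · subst h0
    have h2 : (⊥ : Ideal (𝓞 K)) * 𝔟 = Ideal.span {(0 : 𝓞 K)} := by simp
    rw [G.Ps_of_eq h𝔟 h2]
    have : ψ (⊥ : Ideal (𝓞 K)) = 0 := map_zero ψ
    rw [this, zero_mul]
  · obtain ⟨𝔞, h𝔞⟩ := G.mem_iff_exists_mul.1 h1
    rw [G.Ps_of_eq h𝔟 h𝔞]
    have h2 := h.sig x h0
    rw [← h𝔞, map_mul] at h2
    have h3 := h.ne 𝔟 h𝔟
    have h4 : ψ 𝔞 = sg e (x : K) * (ψ 𝔟)⁻¹ := by
      rw [← h2]
      field_simp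
    have h5 := G.sg_sq e (x := (x : K)) (by exact_mod_cast h0)
    rw [h4]
    linear_combination -(ψ 𝔟)⁻¹ * h5
  · rw [G.Ps_of_notMem h1]

lemma UC.eqv (h : UC e ψ) (𝔟 : Ideal (𝓞 K)) : G.Eqv e (Ph ψ 𝔟) := by
  intro u x
  have hu : Ideal.span {((u : 𝓞 K))} = ⊤ := Ideal.span_singleton_eq_top.2 u.isUnit
  have h1 := h.sig (u : 𝓞 K) u.ne_zero
  rw [hu, ← Ideal.one_eq_top, map_one] at h1
  rw [← h1, one_mul]
  unfold Ph
  have h2 : ((u : 𝓞 K) * x ∈ 𝔟) ↔ x ∈ 𝔟 := by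
    constructor
    · intro h3
      have := Ideal.mul_mem_left 𝔟 ((u⁻¹ : (𝓞 K)ˣ) : 𝓞 K) h3
      rwa [← mul_assoc, Units.inv_mul, one_mul] at this
    · exact fun h3 => Ideal.mul_mem_left _ _ h3
  classical exact if_congr h2 rfl rfl

lemma per {𝔟 : Ideal (𝓞 K)} {m : ℕ} (hm : (m : 𝓞 K) ∈ 𝔟) (x z : 𝓞 K) :
    Ph ψ 𝔟 (x + m * z) = Ph ψ 𝔟 x := by
  unfold Ph
  have h2 : (x + (m : 𝓞 K) * z ∈ 𝔟) ↔ x ∈ 𝔟 :=
    (Ideal.add_mem_iff_left _ (Ideal.mul_mem_right _ _ hm))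
  classical exact if_congr h2 rfl rfl

lemma perI {𝔟 : Ideal (𝓞 K)} : PerI 𝔟 (Ph ψ 𝔟) := by
  intro x y hxy
  unfold Ph
  have h2 : (x ∈ 𝔟) ↔ y ∈ 𝔟 := by
    constructor
    · intro h
      have := Ideal.sub_mem _ h hxy
      simpa using this
    · intro h
      have := Ideal.add_mem _ hxy h
      simpa using this
  classical exact if_congr h2 rfl rfl

/-- the finite Fourier transform -/
theorem UC.ft (h : UC e ψ) {𝔟 𝔟' : Ideal (𝓞 K)} {m D : ℕ} (hm : 0 < m) (hD : 0 < D)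
    (hid : 𝔟' * (𝔟 * differentIdeal ℤ (𝓞 K)) = Ideal.span {((m * D : ℕ) : 𝓞 K)})
    (hm𝔟 : (m : 𝓞 K) ∈ 𝔟) (x : 𝓞 K) :
    FT D m (Ph ψ 𝔟) x = ψ (differentIdeal ℤ (𝓞 K)) * ((m : ℂ) ^ (Module.finrank ℚ K) /
      (Ideal.absNorm 𝔟 : ℂ)) * conj (Ph ψ 𝔟' x) := by
  have h𝔡 : differentIdeal ℤ (𝓞 K) ≠ ⊥ := differentIdeal_ne_bot
  set k : ℕ := m * D with hk
  have hk0 : 0 < k := Nat.mul_pos hm hD
  have hkne : Ideal.span {(k : 𝓞 K)} ≠ ⊥ := G.span_m_ne_bot hk0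
  have h𝔟 : 𝔟 ≠ ⊥ := by
    rintro rfl
    rw [Ideal.bot_mul, Ideal.mul_bot] at hid
    exact hkne hid.symm
  have h𝔟' : 𝔟' ≠ ⊥ := by
    rintro rfl
    rw [Ideal.bot_mul] at hid
    exact hkne hid.symm
  have hmne : Ideal.span {(m : 𝓞 K)} ≠ ⊥ := G.span_m_ne_bot hm
  have hmle : Ideal.span {(m : 𝓞 K)} ≤ 𝔟 := (Ideal.span_singleton_le_iff_mem _).mpr hm𝔟
  have hNb : (Ideal.absNorm 𝔟 : ℂ) ≠ 0 := by
    exact_mod_cast (fun h1 => h𝔟 (Ideal.absNorm_eq_zero_iff.mp h1))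
  by_cases hx : x ∈ 𝔟'
  swap
  · have e0 : Ph ψ 𝔟' x = 0 := by unfold Ph; rw [if_neg hx]
    rw [e0, map_zero, mul_zero]
    by_cases hcond : ∀ r : 𝓞 K, (D : ℤ) ∣ Algebra.trace ℤ (𝓞 K) (x * r)
    swap
    · unfold FT
      rw [if_neg hcond]
    rw [FT_eq_SQ hcond]
    have hexz : ∃ z ∈ 𝔟, ¬ ((k : ℤ) ∣ Algebra.trace ℤ (𝓞 K) (x * z)) := by
      by_contra hcon
      push Not at hcon
      apply hx
      have h1 : Ideal.span {x} * (𝔟 * differentIdeal ℤ (𝓞 K)) ≤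
          𝔟' * (𝔟 * differentIdeal ℤ (𝓞 K)) := by
        rw [hid, ← mul_assoc, Ideal.mul_le]
        intro w hw δ hδ
        obtain ⟨z, hz, rfl⟩ := Ideal.mem_span_singleton_mul.mp hw
        refine G.trace_dvd_conv hk0 (fun o => ?_) hδ
        rw [mul_assoc]
        exact hcon _ (Ideal.mul_mem_right _ _ hz)
      have h2 : 𝔟' ∣ Ideal.span {x} := by
        have h3 := Ideal.dvd_iff_le.mpr h1
        exact (mul_dvd_mul_iff_right (mul_ne_zero h𝔟 h𝔡)).mp h3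
      exact (Ideal.dvd_span_singleton).mp h2
    obtain ⟨z, hz, hz2⟩ := hexz
    have hPer : PerI (Ideal.span {(m : 𝓞 K)}) (fun r => Ph ψ 𝔟 r * ee k (x * r)) := by
      intro r r' hrr
      have e1 := perI (ψ := ψ) r r' (hmle hrr)
      have e2 : ee k (x * r) = ee k (x * r') := by
        refine ee_sub_eq hk0 ?_
        obtain ⟨t, ht⟩ := Ideal.mem_span_singleton'.mp hrr
        have e3 : x * r - x * r' = (m : ℤ) • (x * t) := by
          rw [← mul_sub, ← ht, zsmul_eq_mul]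
          push_cast
          ring
        rw [e3, map_smul, hk]
        push_cast
        rw [smul_eq_mul]
        exact mul_dvd_mul_left _ (hcond t)
      simp only [e1, e2]
    have hS := SQ_translate hPer z
    have hne1 : ee k (x * z) ≠ 1 := fun h1 => hz2 ((ee_eq_one_iff hk0 _).mp h1)
    have e4 : SQ (Ideal.span {(m : 𝓞 K)}) (fun r => Ph ψ 𝔟 (r + z) * ee k (x * (r + z))) =
        ee k (x * z) * SQ (Ideal.span {(m : 𝓞 K)}) (fun r => Ph ψ 𝔟 r * ee k (x * r)) := by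
      rw [← SQ_const_mul hmne]
      refine SQ_congr fun r => ?_
      have e5 : Ph ψ 𝔟 (r + z) = Ph ψ 𝔟 r := perI _ _ (by rwa [add_sub_cancel_left])
      rw [e5, mul_add, ee_add]
      ring
    have e6 : (1 - ee k (x * z)) *
        SQ (Ideal.span {(m : 𝓞 K)}) (fun r => Ph ψ 𝔟 r * ee k (x * r)) = 0 := by
      have := e4.symm.trans hS
      linear_combination -this
    rcases mul_eq_zero.mp e6 with h7 | h7
    · exact absurd (sub_eq_zero.mp h7).symm hne1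
    · exact h7
  -- `x ∈ 𝔟'`
  have htr : ∀ z ∈ 𝔟, (k : ℤ) ∣ Algebra.trace ℤ (𝓞 K) (x * z) := by
    intro z hz
    refine trace_dvd fun δ hδ => ?_
    have e0 : x * z * δ = x * (z * δ) := mul_assoc _ _ _
    rw [← hid, e0]
    exact Ideal.mul_mem_mul hx (Ideal.mul_mem_mul hz hδ)
  have hcond : ∀ r : 𝓞 K, (D : ℤ) ∣ Algebra.trace ℤ (𝓞 K) (x * r) := by
    intro r
    have h1 := htr (m * r) (Ideal.mul_mem_right _ _ hm𝔟)
    have e3 : x * (m * r) = (m : ℤ) • (x * r) := by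
      rw [zsmul_eq_mul]
      push_cast
      ring
    rw [e3, map_smul, hk, smul_eq_mul] at h1
    push_cast at h1
    exact (mul_dvd_mul_iff_left (by exact_mod_cast hm.ne')).mp h1
  have hf : PerI 𝔟 (fun r => Ph ψ 𝔟 r * ee k (x * r)) := by
    intro r r' hrr
    change Ph ψ 𝔟 r * ee k (x * r) = Ph ψ 𝔟 r' * ee k (x * r')
    rw [perI r r' hrr]
    congr 1
    refine ee_sub_eq hk0 ?_
    rw [← mul_sub]
    exact htr _ hrr
  have hC : FT D m (Ph ψ 𝔟) x = ((m : ℂ) ^ (Module.finrank ℚ K) /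
      (Ideal.absNorm 𝔟 : ℂ)) * SQ 𝔟 (fun r => Ph ψ 𝔟 r * ee k (x * r)) := by
    rw [FT_eq_SQ hcond]
    have h1 := SQ_mono hmne hmle hf
    rw [absNorm_span_nat] at h1
    push_cast at h1
    rw [div_mul_eq_mul_div, eq_div_iff hNb, ← h1]
    ring
  -- the sum over `𝓞/𝔟`: one term
  have hS : SQ 𝔟 (fun r => Ph ψ 𝔟 r * ee k (x * r)) = (ψ 𝔟)⁻¹ := by
    unfold SQ
    rw [finsum_eq_single _ (Ideal.Quotient.mk 𝔟 0) (fun r hr => ?_)]
    · have h0 : Quotient.out (Ideal.Quotient.mk 𝔟 (0 : 𝓞 K)) ∈ 𝔟 := by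
        rw [← Ideal.Quotient.eq_zero_iff_mem]
        have : Ideal.Quotient.mk 𝔟 (Quotient.out (Ideal.Quotient.mk 𝔟 (0 : 𝓞 K))) =
          Ideal.Quotient.mk 𝔟 0 := Quotient.out_eq _
        rw [this, map_zero]
      have h1 : ee k (x * Quotient.out (Ideal.Quotient.mk 𝔟 (0 : 𝓞 K))) = 1 :=
        (ee_eq_one_iff hk0 _).2 (htr _ h0)
      simp only []
      rw [h1, mul_one]
      unfold Ph
      rw [if_pos h0]
    · have h0 : Quotient.out r ∉ 𝔟 := by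
        intro h1
        apply hr
        rw [← Ideal.Quotient.eq_zero_iff_mem] at h1
        have h2 : Ideal.Quotient.mk 𝔟 (Quotient.out r) = r := Quotient.out_eq _
        rw [← h2, h1, map_zero]
      unfold Ph
      simp only []
      rw [if_neg h0, zero_mul]
  rw [hC, hS]
  have h1 : Ph ψ 𝔟' x = (ψ 𝔟')⁻¹ := by unfold Ph; rw [if_pos hx]
  rw [h1]
  -- `ψ 𝔡 conj (ψ 𝔟')⁻¹ = (ψ 𝔟)⁻¹`
  have h2 := congrArg ψ hid
  rw [map_mul, map_mul, h.sig _ (by exact_mod_cast hk0.ne')] at h2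
  have h3 : sg e (((k : ℕ) : 𝓞 K) : K) = 1 := by
    have e5 : (((k : ℕ) : 𝓞 K) : K) = (k : K) := map_natCast (algebraMap (𝓞 K) K) k
    rw [e5, G.sg_natCast e hk0]
  rw [h3] at h2
  have h4 : conj ((ψ 𝔟')⁻¹) = ψ 𝔟' := by
    have h5 : ψ 𝔟' * conj (ψ 𝔟') = 1 := by
      rw [Complex.mul_conj, Complex.normSq_eq_norm_sq, h.norm_one h𝔟']; simp
    rw [map_inv₀]
    have h6 := h.ne 𝔟' h𝔟'
    have h7 : conj (ψ 𝔟') ≠ 0 := (map_ne_zero _).2 h6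
    field_simp
    linear_combination -h5
  rw [h4]
  have h5 := h.ne 𝔟 h𝔟
  field_simp
  linear_combination -((m : ℂ) ^ (Module.finrank ℚ K)) * h2

end Pool.Agent.Q246.Unr
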