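import Pool.Agent.Q246.HeckePk
import Pool.Agent.Q246.Unram2

/-!
# The L-functions of the unramified characters of all number fields in the class `UL`

In particular the Dedekind zeta functions of all number fields.
-/

set_option autoImplicit false

open NumberField Complex Filter Topology
open scoped ComplexConjugate

namespace Pool.Agent.Q246.HPk

open Pool.Agent.W355.UN Pool.Agent.W169.HF H353.E Pool.Agent.Y773
open Pool.Agent.Q246.Unr (UC Triv)

variable {K : Type} [Field K] [NumberField K]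

theorem slow_of {X : ℂ → ℂ} (hX : Differentiable ℂ X) {w : ℂ} (hw : ‖w‖ = 1)
    (hfe : ∀ s : ℂ, X s = w * conj (X (1 - conj s)))
    (hright : ∀ δ : ℝ, 0 < δ → ∃ K : ℝ, 0 < K ∧ ∀ s : ℂ, 2 ≤ s.re →
      ‖X s‖ ≤ K * Real.exp (δ * ‖s‖ ^ 2)) {C : ℝ} (hC : 0 ≤ C)
    (hstrip : ∀ s : ℂ, -1 ≤ s.re → s.re ≤ 2 → ‖X s‖ ≤ C * (1 + ‖s‖) ^ 2) : Slow X := by
  have hnorm : ∀ s : ℂ, ‖X s‖ = ‖X (1 - conj s)‖ := fun s => by
    rw [hfe s, norm_mul, hw, one_mul, Complex.norm_conj]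
  have hre : ∀ s : ℂ, (1 - conj s).re = 1 - s.re := fun s => by simp
  obtain ⟨K1, hK1, h1⟩ := hright 1 one_pos
  refine ⟨hX, Pool.Agent.W12.UN.slow X hX ⟨|Real.log (K1 + C + 1)| + 3, 2, fun s => ?_⟩
    ⟨w, hw, hfe⟩ hright⟩
  set M : ℝ := K1 + C + 1 with hM
  have hM1 : 1 ≤ M := by rw [hM]; linarith
  have hn : 0 ≤ ‖s‖ := norm_nonneg s
  have hlogM : 0 ≤ Real.log M := Real.log_nonneg hM1
  have hge : M * Real.exp (3 * (1 + ‖s‖) ^ 2) ≤
      Real.exp ((|Real.log M| + 3) * (1 + ‖s‖) ^ (2 : ℝ)) := by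
    rw [abs_of_nonneg hlogM, Real.rpow_two]
    calc M * Real.exp (3 * (1 + ‖s‖) ^ 2) = Real.exp (Real.log M + 3 * (1 + ‖s‖) ^ 2) := by
          rw [Real.exp_add, Real.exp_log (by linarith)]
      _ ≤ _ := by
        apply Real.exp_le_exp.2
        have h2 : 1 ≤ (1 + ‖s‖) ^ 2 := by nlinarith
        nlinarith
  refine le_trans ?_ hge
  have hsmall : ∀ z : ℂ, 2 ≤ z.re → ‖z‖ ≤ 1 + ‖s‖ → ‖X z‖ ≤ M * Real.exp (3 * (1 + ‖s‖) ^ 2) := by
    intro z hz hzs
    refine (h1 z hz).trans ?_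
    have h2 : K1 ≤ M := by rw [hM]; linarith
    have h3 : 1 * ‖z‖ ^ 2 ≤ 3 * (1 + ‖s‖) ^ 2 := by
      have := norm_nonneg z
      nlinarith
    exact mul_le_mul h2 (Real.exp_le_exp.2 h3) (Real.exp_nonneg _) (by linarith)
  rcases lt_or_ge 2 s.re with h2 | h2
  · exact hsmall s h2.le (by linarith)
  · rcases lt_or_ge s.re (-1) with h3 | h3
    · rw [hnorm s]
      refine hsmall _ (by rw [hre]; linarith) ?_
      refine (norm_sub_le _ _).trans ?_
      rw [norm_one, Complex.norm_conj]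
    · refine (hstrip s h3 h2).trans ?_
      have h4 : C ≤ M := by rw [hM]; linarith
      have h5 : (1 + ‖s‖) ^ 2 ≤ Real.exp (3 * (1 + ‖s‖) ^ 2) := by
        have := Real.add_one_le_exp (3 * (1 + ‖s‖) ^ 2)
        nlinarith
      exact mul_le_mul h4 h5 (by positivity) (by linarith)

/-- **The L-functions of the characters of the narrow class group of number fields.** -/
theorem unr_pk {ψ : Ideal (𝓞 K) →*₀ ℂ} {e : InfinitePlace K → ℕ} (h : UC e ψ) :
    ∃ X : ℂ → ℂ, Pk (Fintype.card (K →+* ℂ)) ((Ideal.absNorm (differentIdeal ℤ (𝓞 K)) : ℕ) : ℝ)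
      (fun y => ((Ideal.absNorm (differentIdeal ℤ (𝓞 K)) : ℕ) : ℝ) *
        ∏ φ : K →+* ℂ, (1 + ‖(y : ℂ) * I + (G.ex e φ : ℂ)‖))
      (open Classical in fun s => (s * (s - 1)) ^ (if Triv ψ then 1 else 0) *
        (GG ((Ideal.absNorm (differentIdeal ℤ (𝓞 K)) : ℕ) : ℝ) (G.ex e) s * LI ψ s)) X := by
  classical
  obtain ⟨X, w, hX, hw, hXe, hXfe, hXb⟩ := h.fe
  have h𝔡 : differentIdeal ℤ (𝓞 K) ≠ ⊥ := differentIdeal_ne_bot
  set N : ℝ := ((Ideal.absNorm (differentIdeal ℤ (𝓞 K)) : ℕ) : ℝ) with hN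
  have hN1 : 1 ≤ N := by
    rw [hN]
    exact_mod_cast Nat.one_le_iff_ne_zero.mpr fun h1 => h𝔡 (Ideal.absNorm_eq_zero_iff.mp h1)
  obtain ⟨r, hr⟩ : ∃ r : ℕ, r = if Triv ψ then 1 else 0 := ⟨_, rfl⟩
  have hr1 : r ≤ 1 := by rw [hr]; split_ifs <;> simp
  rw [← hr] at hXe
  rw [← hr]
  obtain ⟨A, hA, hdir⟩ := Pool.Agent.Y772.DK.t_dirK K
  obtain ⟨hd1, hd2, hd3, hd4, hd5, hd6, hd7, -⟩ := hdir ψ h.norm_le_one
  have hn1 : ∀ s : ℂ, 1 < s.re → s ≠ 0 ∧ s ≠ 1 := fun s hs => by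
    constructor
    · rintro rfl; simp at hs; linarith
    · rintro rfl; simp at hs
  -- growth to the right
  have hright : ∀ δ : ℝ, 0 < δ → ∃ K : ℝ, 0 < K ∧ ∀ s : ℂ, 2 ≤ s.re →
      ‖X s‖ ≤ K * Real.exp (δ * ‖s‖ ^ 2) := by
    intro δ hδ
    obtain ⟨K1, hK1, h1⟩ := GG_growth hN1 (G.ex e) (δ / 2) (by positivity)
    refine ⟨(2 + 4 / δ) * (K1 * (|A| + 1)), by positivity, fun s hs => ?_⟩
    rw [hXe s (by linarith), norm_mul, norm_pow, norm_mul, norm_mul]
    have h2 : ‖LI ψ s‖ ≤ |A| + 1 := (hd5 s (by linarith)).trans (by linarith [le_abs_self A])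
    have hs0 : 2 ≤ ‖s‖ := hs.trans ((le_abs_self _).trans (Complex.abs_re_le_norm s))
    have h3 : ‖s - 1‖ ≤ 2 * ‖s‖ := by
      refine (norm_sub_le _ _).trans ?_
      rw [norm_one]
      linarith
    have h4 : (‖s‖ * ‖s - 1‖) ^ r ≤ 2 + 2 * ‖s‖ ^ 2 := by
      interval_cases r
      · rw [pow_zero]; nlinarith
      · rw [pow_one]; nlinarith [norm_nonneg (s - 1)]
    have h5 : 2 + 2 * ‖s‖ ^ 2 ≤ (2 + 4 / δ) * Real.exp (δ / 2 * ‖s‖ ^ 2) := by
      have h6 := Real.add_one_le_exp (δ / 2 * ‖s‖ ^ 2)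
      have h7 : 0 < Real.exp (δ / 2 * ‖s‖ ^ 2) := Real.exp_pos _
      have h8 : 1 ≤ Real.exp (δ / 2 * ‖s‖ ^ 2) := Real.one_le_exp (by positivity)
      have h9 : 2 * ‖s‖ ^ 2 = 4 / δ * (δ / 2 * ‖s‖ ^ 2) := by field_simp; ring
      have h10 : 4 / δ * (δ / 2 * ‖s‖ ^ 2) ≤ 4 / δ * Real.exp (δ / 2 * ‖s‖ ^ 2) := by
        have : 0 < 4 / δ := by positivity
        gcongr
        linarith
      rw [h9]
      nlinarith
    have e1 : δ * ‖s‖ ^ 2 = δ / 2 * ‖s‖ ^ 2 + δ / 2 * ‖s‖ ^ 2 := by ring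
    rw [e1, Real.exp_add]
    calc (‖s‖ * ‖s - 1‖) ^ r * (‖GG N (G.ex e) s‖ * ‖LI ψ s‖)
        ≤ ((2 + 4 / δ) * Real.exp (δ / 2 * ‖s‖ ^ 2)) *
          ((K1 * Real.exp (δ / 2 * ‖s‖ ^ 2)) * (|A| + 1)) := by
          have h10 := h1 s hs
          have h11 := h4.trans h5
          gcongr
      _ = _ := by ring
  obtain ⟨C, hC, hCb⟩ := hXb (-1) 2
  have hslow : Slow X := slow_of hX hw hXfe hright hC hCb
  let E : Fin (Fintype.card (K →+* ℂ)) ≃ (K →+* ℂ) := (Fintype.equivFin (K →+* ℂ)).symm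
  have hcard : Fintype.card (K →+* ℂ) = Module.finrank ℚ K := NumberField.Embeddings.card K ℂ
  have hgaf : ∀ s : ℂ, gaf N (fun j => -(G.ex e (E j) : ℂ)) s = GG N (G.ex e) s := by
    intro s
    unfold gaf GG
    congr 1
    rw [← Equiv.prod_comp E]
    refine Finset.prod_congr rfl fun j _ => ?_
    rw [sub_neg_eq_add]
  refine ⟨X, fun j => -(G.ex e (E j) : ℂ), fun s => (s * (s - 1)) ^ r * LI ψ s, ?_, fun y => ?_,
    2, fun s hs => ?_⟩
  · refine ⟨?_, hN1, Bst_nonneg, le_rfl, fun j => ?_, hslow, ⟨w, hw, hXfe⟩, fun s hs => ?_,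
      fun s hs => ?_, fun ρ hρ hρ1 s hs => ?_⟩
    · rw [hcard]
      exact Module.finrank_pos
    · rw [neg_re, natCast_re]
      have : (0 : ℝ) ≤ G.ex e (E j) := Nat.cast_nonneg _
      linarith
    · rw [hXe s (by linarith), hgaf]
      ring
    · obtain ⟨n1, n2⟩ := hn1 s (by linarith)
      exact mul_ne_zero (pow_ne_zero _ (mul_ne_zero n1 (sub_ne_zero.2 n2))) (hd3 s (by linarith))
    · have hs1 : 1 < s.re := by linarith
      obtain ⟨n1, n2⟩ := hn1 s hs1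
      have n2' : s - 1 ≠ 0 := sub_ne_zero.2 n2
      have hdL : DifferentiableAt ℂ (LI ψ) s := hd2 s hs1
      have hLne := hd3 s hs1
      have hdp : DifferentiableAt ℂ (fun z : ℂ => (z * (z - 1)) ^ r) s := by fun_prop
      have hpne : (s * (s - 1)) ^ r ≠ 0 := pow_ne_zero _ (mul_ne_zero n1 n2')
      rw [logDeriv_mul s hpne hLne hdp hdL]
      have hLb : ‖logDeriv (LI ψ) s‖ ≤ (Fintype.card (K →+* ℂ) : ℕ) * ∑' n : ℕ,
          ‖LSeries.term (fun n => ((ArithmeticFunction.vonMangoldt n : ℝ) : ℂ)) (1 + ρ) n‖ := by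
        rw [logDeriv_apply, hd4 s hs1, norm_neg, logDeriv_eq]
        refine lc_bound (m := Fintype.card (K →+* ℂ)) (c := cc ψ) (fun n => ?_) hρ (by linarith)
        rw [hcard]
        exact hd7 n
      have hpole : ‖logDeriv (fun z : ℂ => (z * (z - 1)) ^ r) s‖ ≤ |2 / ρ| := by
        have h1 : logDeriv (fun z : ℂ => (z * (z - 1)) ^ r) s = r * (1 / s + 1 / (s - 1)) := by
          have h2 : HasDerivAt (fun z : ℂ => z * (z - 1)) (1 * (s - 1) + s * 1) s :=
            (hasDerivAt_id s).mul ((hasDerivAt_id s).sub_const 1)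
          have h3 := h2.fun_pow r
          rw [logDeriv_apply, h3.deriv]
          rcases Nat.eq_zero_or_pos r with h0 | h0
          · subst h0
            simp
          · have : r = 1 := by omega
            subst this
            simp only [Nat.sub_self, pow_zero, mul_one, pow_one, Nat.cast_one, one_mul]
            field_simp
        have h5 : ρ ≤ ‖s - 1‖ := by
          have h6 := Complex.abs_re_le_norm (s - 1)
          rw [Complex.sub_re, Complex.one_re] at h6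
          have := le_abs_self (s.re - 1)
          linarith
        have h6 : ρ ≤ ‖s‖ := by
          have h6 := Complex.abs_re_le_norm s
          have := le_abs_self s.re
          linarith
        rw [h1, norm_mul, abs_of_pos (by positivity)]
        have h7 : ‖(1 / s + 1 / (s - 1) : ℂ)‖ ≤ 2 / ρ := by
          refine (norm_add_le _ _).trans ?_
          rw [norm_div, norm_div, norm_one]
          have a1 : 1 / ‖s‖ ≤ 1 / ρ := one_div_le_one_div_of_le hρ h6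
          have a2 : 1 / ‖s - 1‖ ≤ 1 / ρ := one_div_le_one_div_of_le hρ h5
          have a3 : 2 / ρ = 1 / ρ + 1 / ρ := by ring
          linarith
        have h8 : ‖(r : ℂ)‖ ≤ 1 := by
          rw [Complex.norm_natCast]
          exact_mod_cast hr1
        calc ‖(r : ℂ)‖ * ‖(1 / s + 1 / (s - 1) : ℂ)‖ ≤ 1 * (2 / ρ) := by gcongr
          _ = 2 / ρ := one_mul _
      have hm1 : (1 : ℝ) ≤ ((Fintype.card (K →+* ℂ) : ℕ) : ℝ) := by
        rw [hcard]
        exact_mod_cast Module.finrank_pos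
      refine (norm_add_le _ _).trans ?_
      unfold Bst
      have h9 : |2 / ρ| ≤ ((Fintype.card (K →+* ℂ) : ℕ) : ℝ) * |2 / ρ| :=
        le_mul_of_one_le_left (abs_nonneg _) hm1
      rw [mul_add]
      exact add_le_add (hpole.trans h9) hLb
  · unfold W355.UN.cond
    congr 1
    rw [← Equiv.prod_comp E]
    refine Finset.prod_congr rfl fun j _ => ?_
    rw [sub_neg_eq_add]
  · exact hXe s (by linarith)

end Pool.Agent.Q246.HPk
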